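import Pool.Agent.N516.FI.Cheb

set_option autoImplicit false

namespace Pool.Agent.N516.FI

open Finset Filter Topology

variable {d : ℕ}

theorem eventually_one_lt_nrm : ∀ᶠ z : Fin d → ℤ in cofinite, 1 < nrm z := by
  rw [Filter.eventually_cofinite]
  apply Set.Finite.subset (Finset.finite_toSet (Fintype.piFinset (fun _ : Fin d => Finset.Icc (-1 : ℤ) 1)))
  intro z hz
  rw [Finset.mem_coe, Fintype.mem_piFinset]
  intro i
  have h1 : |(z i : ℝ)| ≤ 1 := (coord_le_nrm z i).trans (not_lt.1 hz)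
  have h2 : |z i| ≤ 1 := by exact_mod_cast h1
  rw [Finset.mem_Icc]
  exact abs_le.1 h2

theorem G_nonneg {μ : ℝ} (hμ : 1 ≤ μ) (z : Fin d → ℤ) : 0 ≤ G d μ z :=
  tsum_nonneg (fun n => by positivity)

theorem le_rpow_of_log {x y c : ℝ} (hx : 1 < x) (hy : 0 ≤ y) (h : Real.log y / Real.log x < c) :
    y ≤ x ^ c := by
  rcases hy.eq_or_lt with h0 | h0
  · rw [← h0]; positivity
  · have hl : 0 < Real.log x := Real.log_pos hx
    rw [div_lt_iff₀ hl] at h
    rw [Real.rpow_def_of_pos (by linarith), ← Real.log_le_iff_le_exp h0]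
    linarith [mul_comm c (Real.log x)]

theorem rpow_le_of_log {x y c : ℝ} (hx : 1 < x) (hy : 0 < y) (h : c < Real.log y / Real.log x) :
    x ^ c ≤ y := by
  have hl : 0 < Real.log x := Real.log_pos hx
  rw [lt_div_iff₀ hl] at h
  rw [Real.rpow_def_of_pos (by linarith), ← Real.le_log_iff_exp_le hy]
  linarith [mul_comm c (Real.log x)]

theorem green (hd : 1 ≤ d) {μ η : ℝ} (hμ : 1 ≤ μ)
    (hη : Tendsto (fun z : Fin d → ℤ => Real.log (G d μ z) / Real.log (nrm z)) cofinite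
      (𝓝 (-((d : ℝ) - 2 + η)))) (ε : ℝ) (hε : 0 < ε) :
    ∃ K0 K : ℝ, 0 ≤ K0 ∧ 0 ≤ K ∧ ∀ (r : ℝ) (Y : Finset (Fin d → ℤ)), 1 ≤ r →
      (∀ z ∈ Y, nsq z ≤ r) →
      ∑ z ∈ Y, G d μ z ≤ K0 + K * r ^ (max (2 - η + 2 * ε) 0 / 2) := by
  classical
  obtain ⟨K, hK0, hK⟩ := sum_bound d hd ε hε
  have hev : ∀ᶠ z : Fin d → ℤ in cofinite, 1 < nrm z ∧
      G d μ z ≤ (nrm z) ^ (-((d : ℝ) - 2 + η) + ε) := by
    filter_upwards [eventually_one_lt_nrm, hη.eventually (gt_mem_nhds (by linarith :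
      -((d : ℝ) - 2 + η) < -((d : ℝ) - 2 + η) + ε))] with z h1 h2
    exact ⟨h1, le_rpow_of_log h1 (G_nonneg hμ z) h2⟩
  rw [Filter.eventually_cofinite] at hev
  set E : Finset (Fin d → ℤ) := hev.toFinset with hE
  refine ⟨∑ z ∈ E, G d μ z, K, Finset.sum_nonneg (fun z _ => G_nonneg hμ z), hK0,
    fun r Y hr hY => ?_⟩
  rw [← Finset.sum_filter_add_sum_filter_not Y (fun z => z ∈ E)]
  apply add_le_add
  · apply Finset.sum_le_sum_of_subset_of_nonneg
    · intro z hz; exact (mem_filter.1 hz).2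
    · intro z _ _; exact G_nonneg hμ z
  · have hgood : ∀ z ∈ Y.filter (fun z => z ∉ E), 1 < nrm z ∧
        G d μ z ≤ (nrm z) ^ (-((d : ℝ) - 2 + η) + ε) := by
      intro z hz
      have h1 := (mem_filter.1 hz).2
      rw [hE, Set.Finite.mem_toFinset] at h1
      by_contra h2
      exact h1 h2
    have hne : ∀ z ∈ Y.filter (fun z => z ∉ E), z ≠ 0 := by
      intro z hz h0
      have h1 := (hgood z hz).1
      rw [h0] at h1
      unfold nrm nsq at h1
      simp at h1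
      linarith
    calc ∑ z ∈ Y.filter (fun z => z ∉ E), G d μ z
        ≤ ∑ z ∈ Y.filter (fun z => z ∉ E),
            r ^ (max (2 - η + 2 * ε) 0 / 2) * (nrm z) ^ (-((d : ℝ) + ε)) := by
          refine Finset.sum_le_sum (fun z hz => ?_)
          obtain ⟨h1, h2⟩ := hgood z hz
          refine h2.trans ?_
          have h3 : -((d : ℝ) - 2 + η) + ε = (2 - η + 2 * ε) + -((d : ℝ) + ε) := by ring
          rw [h3, Real.rpow_add (by linarith)]
          apply mul_le_mul_of_nonneg_right _ (by positivity)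
          have h4 : nrm z ≤ r ^ (1 / 2 : ℝ) := by
            rw [← Real.sqrt_eq_rpow]
            exact Real.sqrt_le_sqrt (hY z (mem_filter.1 hz).1)
          calc (nrm z) ^ (2 - η + 2 * ε) ≤ (nrm z) ^ (max (2 - η + 2 * ε) 0) :=
                Real.rpow_le_rpow_of_exponent_le h1.le (le_max_left _ _)
            _ ≤ (r ^ (1 / 2 : ℝ)) ^ (max (2 - η + 2 * ε) 0) :=
                Real.rpow_le_rpow (by linarith) h4 (le_max_right _ _)
            _ = r ^ (max (2 - η + 2 * ε) 0 / 2) := by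
                rw [← Real.rpow_mul (by linarith)]
                congr 1; ring
      _ = r ^ (max (2 - η + 2 * ε) 0 / 2) * ∑ z ∈ Y.filter (fun z => z ∉ E),
            (nrm z) ^ (-((d : ℝ) + ε)) := by rw [Finset.mul_sum]
      _ ≤ r ^ (max (2 - η + 2 * ε) 0 / 2) * K :=
          mul_le_mul_of_nonneg_left (hK _ hne) (by positivity)
      _ = K * r ^ (max (2 - η + 2 * ε) 0 / 2) := mul_comm _ _

theorem gamma_ge_one (hd : 1 ≤ d) {μ γ : ℝ}
    (hμ : Tendsto (fun n : ℕ => (C d n : ℝ) ^ (1 / (n : ℝ))) atTop (𝓝 μ))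
    (hγ : Tendsto (fun n : ℕ => Real.log (C d n / μ ^ n) / Real.log n) atTop (𝓝 (γ - 1))) :
    1 ≤ γ := by
  obtain ⟨h1, h2⟩ := mu_pow_le hd hμ
  have : 0 ≤ γ - 1 := by
    refine ge_of_tendsto hγ ?_
    filter_upwards [eventually_ge_atTop 1] with n hn
    apply div_nonneg
    · apply Real.log_nonneg
      rw [one_le_div (by positivity)]
      exact h2 n
    · apply Real.log_nonneg; exact_mod_cast hn
  linarith

theorem nu_nonneg (hd : 1 ≤ d) {ν : ℝ}
    (hν : Tendsto (fun n : ℕ => Real.log (msd d n) / Real.log n) atTop (𝓝 (2 * ν))) : 0 ≤ ν := by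
  have : 0 ≤ 2 * ν := by
    refine ge_of_tendsto hν ?_
    filter_upwards [eventually_ge_atTop 1] with n hn
    apply div_nonneg
    · exact Real.log_nonneg (msd_ge_one hd hn)
    · apply Real.log_nonneg; exact_mod_cast hn
  linarith

theorem eps_bound (hd : 1 ≤ d) {μ γ ν η : ℝ}
    (hμ : Tendsto (fun n : ℕ => (C d n : ℝ) ^ (1 / (n : ℝ))) atTop (𝓝 μ))
    (hγ : Tendsto (fun n : ℕ => Real.log (C d n / μ ^ n) / Real.log n) atTop (𝓝 (γ - 1)))
    (hν : Tendsto (fun n : ℕ => Real.log (msd d n) / Real.log n) atTop (𝓝 (2 * ν)))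
    (hs : ∀ z : Fin d → ℤ, Summable (fun n : ℕ => (Cz d n z : ℝ) / μ ^ n))
    (hη : Tendsto (fun z : Fin d → ℤ => Real.log (G d μ z) / Real.log (nrm z)) cofinite
      (𝓝 (-((d : ℝ) - 2 + η)))) (ε : ℝ) (hε : 0 < ε) :
    γ - ε ≤ (ν + ε / 2) * max (2 - η + 2 * ε) 0 := by
  obtain ⟨hμ1, hμ2⟩ := mu_pow_le hd hμ
  have hγ1 := gamma_ge_one hd hμ hγ
  have hν0 := nu_nonneg hd hν
  obtain ⟨K0, K, hK0, hK, hKb⟩ := green hd hμ1 hη ε hε
  set q : ℝ := max (2 - η + 2 * ε) 0 with hq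
  have hq0 : 0 ≤ q := le_max_right _ _
  set θ : ℝ := (ν + ε / 2) * q with hθ
  have hθ0 : 0 ≤ θ := mul_nonneg (by linarith) hq0
  by_contra hcon
  push Not at hcon
  -- eventual bounds
  have e1 : ∀ᶠ n : ℕ in atTop, (n : ℝ) ^ (γ - 1 - ε) ≤ (C d n : ℝ) / μ ^ n := by
    filter_upwards [eventually_ge_atTop 2, hγ.eventually (lt_mem_nhds (by linarith :
      γ - 1 - ε < γ - 1))] with n hn h
    apply rpow_le_of_log _ _ h
    · exact_mod_cast hn
    · have : 0 < C d n := C_pos hd n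
      positivity
  have e2 : ∀ᶠ n : ℕ in atTop, msd d n ≤ (n : ℝ) ^ (2 * ν + ε) := by
    filter_upwards [eventually_ge_atTop 2, hν.eventually (gt_mem_nhds (by linarith :
      2 * ν < 2 * ν + ε))] with n hn h
    apply le_rpow_of_log _ _ h
    · exact_mod_cast hn
    · have := msd_ge_one hd (show 1 ≤ n by omega)
      linarith
  obtain ⟨n0, hn0⟩ := Filter.eventually_atTop.1 (e1.and e2)
  -- the inequality for large `N`
  set A : ℝ := 2 ^ ε * (2 * K0) with hA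
  set B : ℝ := 2 ^ ε * (2 * (K * (2 * 2 ^ (2 * ν + ε)) ^ (q / 2))) with hB
  have key : ∀ N : ℕ, max n0 1 ≤ N → (N : ℝ) ^ (γ - ε - θ) ≤ A + B := by
    intro N hN
    have hN0 : n0 ≤ N := (le_max_left _ _).trans hN
    have hN1 : 1 ≤ N := (le_max_right _ _).trans hN
    have hNr : (1 : ℝ) ≤ N := by exact_mod_cast hN1
    have hNp : (0 : ℝ) < N := by linarith
    have h2N : (1 : ℝ) ≤ 2 * N := by linarith
    set r : ℝ := 2 * (2 * (N : ℝ)) ^ (2 * ν + ε) with hr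
    have hr1 : 1 ≤ r := by
      have : 1 ≤ (2 * (N : ℝ)) ^ (2 * ν + ε) := Real.one_le_rpow h2N (by linarith)
      linarith
    have h1 := main_sum hd hμ1 hs hN1 (r := r) (fun n hn => by
      obtain ⟨ha, hb⟩ := mem_Icc.1 hn
      have h3 := (hn0 n (by omega)).2
      have h4 : (n : ℝ) ^ (2 * ν + ε) ≤ (2 * (N : ℝ)) ^ (2 * ν + ε) := by
        apply Real.rpow_le_rpow (by positivity) _ (by linarith)
        exact_mod_cast hb
      rw [hr]; linarith)
    have h2 := hKb r (Z d N r) hr1 (fun z hz => mem_Z hz)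
    -- lower bound
    have h3 : (N : ℝ) ^ (γ - ε) * (2 : ℝ) ^ (-ε) ≤ ∑ n ∈ Icc N (2 * N), (C d n : ℝ) / μ ^ n := by
      have h5 : ∀ n ∈ Icc N (2 * N), (N : ℝ) ^ (γ - 1) * (2 * (N : ℝ)) ^ (-ε) ≤
          (C d n : ℝ) / μ ^ n := by
        intro n hn
        obtain ⟨ha, hb⟩ := mem_Icc.1 hn
        have har : (N : ℝ) ≤ n := by exact_mod_cast ha
        have hbr : (n : ℝ) ≤ 2 * N := by exact_mod_cast hb
        have hnp : (0 : ℝ) < n := by linarith
        refine le_trans ?_ (hn0 n (by omega)).1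
        have : γ - 1 - ε = (γ - 1) + (-ε) := by ring
        rw [this, Real.rpow_add hnp]
        apply mul_le_mul
        · exact Real.rpow_le_rpow hNp.le har (by linarith)
        · exact Real.rpow_le_rpow_of_nonpos hnp hbr (by linarith)
        · positivity
        · positivity
      have h6 := Finset.card_nsmul_le_sum (Icc N (2 * N)) (fun n => (C d n : ℝ) / μ ^ n)
        ((N : ℝ) ^ (γ - 1) * (2 * (N : ℝ)) ^ (-ε)) h5
      refine le_trans ?_ h6
      rw [nsmul_eq_mul, Nat.card_Icc]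
      have h7 : (N : ℝ) ≤ ((2 * N + 1 - N : ℕ) : ℝ) := by
        have : N ≤ 2 * N + 1 - N := by omega
        exact_mod_cast this
      have h8 : (N : ℝ) ^ (γ - ε) * (2 : ℝ) ^ (-ε) =
          (N : ℝ) * ((N : ℝ) ^ (γ - 1) * (2 * (N : ℝ)) ^ (-ε)) := by
        rw [Real.mul_rpow (by norm_num) hNp.le]
        have : γ - ε = 1 + ((γ - 1) + (-ε)) := by ring
        rw [this, Real.rpow_add hNp, Real.rpow_add hNp, Real.rpow_one]
        ring
      rw [h8]
      exact mul_le_mul_of_nonneg_right h7 (by positivity)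
    -- upper bound
    have h4 : r ^ (q / 2) = (2 * 2 ^ (2 * ν + ε)) ^ (q / 2) * (N : ℝ) ^ θ := by
      rw [hr, Real.mul_rpow (by norm_num : (0:ℝ) ≤ 2) hNp.le, ← mul_assoc,
        Real.mul_rpow (by positivity) (by positivity), ← Real.rpow_mul hNp.le]
      congr 2
      rw [hθ]; ring
    have h9 : (N : ℝ) ^ (γ - ε) * (2 : ℝ) ^ (-ε) ≤
        2 * (K0 + K * ((2 * 2 ^ (2 * ν + ε)) ^ (q / 2) * (N : ℝ) ^ θ)) := by
      rw [← h4]; linarith
    have h10 : (1 : ℝ) ≤ (N : ℝ) ^ θ := Real.one_le_rpow hNr hθ0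
    have h11 : (N : ℝ) ^ (γ - ε) ≤ (A + B) * (N : ℝ) ^ θ := by
      have h12 : (N : ℝ) ^ (γ - ε) = (2 : ℝ) ^ ε * ((N : ℝ) ^ (γ - ε) * (2 : ℝ) ^ (-ε)) := by
        have : (2 : ℝ) ^ ε * (2 : ℝ) ^ (-ε) = 1 := by
          rw [← Real.rpow_add (by norm_num), add_neg_cancel, Real.rpow_zero]
        calc (N : ℝ) ^ (γ - ε) = (N : ℝ) ^ (γ - ε) * ((2 : ℝ) ^ ε * (2 : ℝ) ^ (-ε)) := by
              rw [this, mul_one]
          _ = _ := by ring
      rw [h12]
      have hA0 : 0 ≤ A := by rw [hA]; positivity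
      calc (2 : ℝ) ^ ε * ((N : ℝ) ^ (γ - ε) * (2 : ℝ) ^ (-ε))
          ≤ (2 : ℝ) ^ ε * (2 * (K0 + K * ((2 * 2 ^ (2 * ν + ε)) ^ (q / 2) * (N : ℝ) ^ θ))) :=
            mul_le_mul_of_nonneg_left h9 (by positivity)
        _ = A + B * (N : ℝ) ^ θ := by rw [hA, hB]; ring
        _ ≤ A * (N : ℝ) ^ θ + B * (N : ℝ) ^ θ := by
            have := mul_le_mul_of_nonneg_left h10 hA0
            linarith
        _ = _ := by ring
    rw [Real.rpow_sub hNp, div_le_iff₀ (by positivity)]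
    exact h11
  have hlim : Tendsto (fun N : ℕ => (N : ℝ) ^ (γ - ε - θ)) atTop atTop :=
    (tendsto_rpow_atTop (by linarith)).comp tendsto_natCast_atTop_atTop
  obtain ⟨N, hN1, hN2⟩ := ((hlim.eventually_gt_atTop (A + B)).and
    (eventually_ge_atTop (max n0 1))).exists
  exact absurd (key N hN2) (not_le.2 hN1)

theorem fisher (hd : 1 ≤ d) {μ γ ν η : ℝ}
    (hμ : Tendsto (fun n : ℕ => (C d n : ℝ) ^ (1 / (n : ℝ))) atTop (𝓝 μ))
    (hγ : Tendsto (fun n : ℕ => Real.log (C d n / μ ^ n) / Real.log n) atTop (𝓝 (γ - 1)))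
    (hν : Tendsto (fun n : ℕ => Real.log (msd d n) / Real.log n) atTop (𝓝 (2 * ν)))
    (hs : ∀ z : Fin d → ℤ, Summable (fun n : ℕ => (Cz d n z : ℝ) / μ ^ n))
    (hη : Tendsto (fun z : Fin d → ℤ => Real.log (G d μ z) / Real.log (nrm z)) cofinite
      (𝓝 (-((d : ℝ) - 2 + η)))) :
    γ ≤ ν * (2 - η) := by
  have hγ1 := gamma_ge_one hd hμ hγ
  have hlim : Tendsto (fun ε : ℝ => (ν + ε / 2) * max (2 - η + 2 * ε) 0 + ε) (𝓝[>] 0)
      (𝓝 ((ν + 0 / 2) * max (2 - η + 2 * 0) 0 + 0)) := by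
    apply Tendsto.mono_left _ nhdsWithin_le_nhds
    exact Continuous.tendsto (by fun_prop) 0
  have h1 : γ ≤ (ν + 0 / 2) * max (2 - η + 2 * 0) 0 + 0 := by
    refine ge_of_tendsto hlim ?_
    filter_upwards [self_mem_nhdsWithin] with ε hε
    have := eps_bound hd hμ hγ hν hs hη ε hε
    linarith
  have h2 : γ ≤ ν * max (2 - η) 0 := by simpa using h1
  rcases le_total (2 - η) 0 with h | h
  · rw [max_eq_right h] at h2; linarith
  · rwa [max_eq_left h] at h2

end Pool.Agent.N516.FI
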