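import Pool.Agent.N516.FI.Asym

set_option autoImplicit false

namespace Pool.Agent.N516.FI

open Finset Filter Topology

variable {d : ℕ}

open Classical in
/-- the lattice points `z` with `|z| ≤ R` -/
noncomputable def ball (d R : ℕ) : Finset (Fin d → ℤ) :=
  (Fintype.piFinset (fun _ : Fin d => Icc (-(R : ℤ)) R)).filter (fun z => nsq z ≤ (R : ℝ) ^ 2)

theorem mem_ball {R : ℕ} {z : Fin d → ℤ} : z ∈ ball d R ↔ nsq z ≤ (R : ℝ) ^ 2 := by
  classical
  unfold ball
  rw [mem_filter, and_iff_right_iff_imp]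
  intro h
  rw [Fintype.mem_piFinset]
  intro i
  have h1 : (z i : ℝ) ^ 2 ≤ (R : ℝ) ^ 2 :=
    (Finset.single_le_sum (f := fun j => (z j : ℝ) ^ 2) (fun j _ => sq_nonneg _) (mem_univ i)).trans h
  have h2 : |(z i : ℝ)| ≤ R := abs_le_of_sq_le_sq h1 (by positivity)
  have h3 : |z i| ≤ (R : ℤ) := by exact_mod_cast h2
  rw [mem_Icc]; exact abs_le.1 h3

/-- the `ℓ¹` norm -/
def l1 (z : Fin d → ℤ) : ℕ := ∑ i, (z i).natAbs

theorem pos_snoc {n : ℕ} (s : Fin n → Step d) (a : Step d) (k : ℕ) (hk : k ≤ n) :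
    pos (Fin.snoc (α := fun _ => Step d) s a : Fin (n + 1) → Step d) k = pos s k := by
  unfold pos
  rw [Fin.sum_univ_castSucc]
  rw [if_neg (by simp only [Fin.val_last]; omega), add_zero]
  refine Finset.sum_congr rfl (fun i _ => ?_)
  rw [Fin.snoc_castSucc, Fin.val_castSucc]

theorem pos_snoc_last {n : ℕ} (s : Fin n → Step d) (a : Step d) :
    pos (Fin.snoc (α := fun _ => Step d) s a : Fin (n + 1) → Step d) (n + 1) = pos s n + vec a := by
  unfold pos
  rw [Fin.sum_univ_castSucc, if_pos (by simp only [Fin.val_last]; omega), Fin.snoc_last]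
  congr 1
  refine Finset.sum_congr rfl (fun i _ => ?_)
  have := i.2
  rw [Fin.snoc_castSucc, Fin.val_castSucc, if_pos (by omega), if_pos this]

theorem exists_walk : ∀ (m : ℕ) (z : Fin d → ℤ), l1 z = m →
    ∃ s : Fin m → Step d, pos s m = z ∧ ∀ k ≤ m, l1 (pos s k) = k := by
  intro m
  induction m with
  | zero =>
    intro z hz
    refine ⟨Fin.elim0, ?_, ?_⟩
    · have h1 : ∀ i, z i = 0 := by
        intro i
        have := (Finset.sum_eq_zero_iff.1 hz) i (mem_univ i)
        omega
      rw [pos_zero]; funext i; exact (h1 i).symm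
    · intro k hk
      have : k = 0 := by omega
      subst this
      rw [pos_zero]; simp [l1]
  | succ m ih =>
    intro z hz
    have hne : ∃ i, z i ≠ 0 := by
      by_contra h
      push Not at h
      have : l1 z = 0 := Finset.sum_eq_zero (fun i _ => by rw [h i]; rfl)
      omega
    obtain ⟨i, hi⟩ := hne
    set a : Step d := (i, decide (0 < z i)) with ha
    have hl : l1 (z - vec a) = m := by
      have h1 : l1 z = (z i).natAbs + ∑ j ∈ univ.erase i, (z j).natAbs :=
        (Finset.add_sum_erase _ _ (mem_univ i)).symm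
      have h2 : l1 (z - vec a) = ((z - vec a) i).natAbs + ∑ j ∈ univ.erase i, ((z - vec a) j).natAbs :=
        (Finset.add_sum_erase _ _ (mem_univ i)).symm
      have h3 : ∑ j ∈ univ.erase i, ((z - vec a) j).natAbs = ∑ j ∈ univ.erase i, (z j).natAbs := by
        refine Finset.sum_congr rfl (fun j hj => ?_)
        have hji := Finset.ne_of_mem_erase hj
        simp [vec, ha, hji]
      have h4 : ((z - vec a) i).natAbs + 1 = (z i).natAbs := by
        by_cases hp : 0 < z i
        · simp only [Pi.sub_apply, vec, ha, Pi.single_eq_same, hp, decide_true, if_true]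
          omega
        · simp only [Pi.sub_apply, vec, ha, Pi.single_eq_same, hp, decide_false]
          simp only [Bool.false_eq_true, if_false]
          omega
      omega
    obtain ⟨s, hs1, hs2⟩ := ih (z - vec a) hl
    refine ⟨Fin.snoc (α := fun _ => Step d) s a, ?_, ?_⟩
    · rw [pos_snoc_last, hs1]; simp
    · intro k hk
      rcases Nat.lt_or_ge m k with h | h
      · have : k = m + 1 := by omega
        subst this
        rw [pos_snoc_last, hs1]; simpa using hz
      · rw [pos_snoc s a k h]; exact hs2 k h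

theorem G_pos {μ : ℝ} (hμ : 1 ≤ μ) (z : Fin d → ℤ)
    (hs : Summable (fun n : ℕ => (Cz d n z : ℝ) / μ ^ n)) : 0 < G d μ z := by
  classical
  obtain ⟨s, h1, h2⟩ := exists_walk (l1 z) z rfl
  have hC : 0 < Cz d (l1 z) z := by
    unfold Cz
    rw [Finset.card_pos]
    refine ⟨s, mem_filter.2 ⟨mem_filter.2 ⟨mem_univ _, ?_⟩, h1⟩⟩
    intro j k hjk hk h
    have ha := h2 j (by omega)
    have hb := h2 k hk
    rw [h] at ha
    omega
  have h3 := hs.sum_le_tsum {l1 z} (fun n _ => by positivity)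
  rw [Finset.sum_singleton] at h3
  have : 0 < (Cz d (l1 z) z : ℝ) / μ ^ (l1 z) := by positivity
  exact lt_of_lt_of_le this h3

theorem sum_Cz_le (n : ℕ) (Y : Finset (Fin d → ℤ)) : ∑ z ∈ Y, Cz d n z ≤ C d n := by
  classical
  unfold Cz C
  have h := Finset.card_eq_sum_card_fiberwise (f := fun s : Fin n → Step d => pos s n)
    (s := (Gam d n).filter (fun s => pos s n ∈ Y)) (t := Y) (fun s hs => (mem_filter.1 hs).2)
  calc ∑ z ∈ Y, ((Gam d n).filter (fun s => pos s n = z)).card
      = ∑ z ∈ Y, (((Gam d n).filter (fun s => pos s n ∈ Y)).filter (fun s => pos s n = z)).card := by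
        refine Finset.sum_congr rfl (fun z hz => ?_)
        congr 1
        ext s
        simp only [mem_filter]
        constructor
        · rintro ⟨h1, h2⟩; exact ⟨⟨h1, by rw [h2]; exact hz⟩, h2⟩
        · rintro ⟨⟨h1, _⟩, h2⟩; exact ⟨h1, h2⟩
    _ = ((Gam d n).filter (fun s => pos s n ∈ Y)).card := h.symm
    _ ≤ _ := Finset.card_le_card (filter_subset _ _)

theorem short_le {μ : ℝ} (hμ : 1 ≤ μ) (Y : Finset (Fin d → ℤ)) (M : ℕ) :
    ∑ z ∈ Y, ∑ n ∈ range M, (Cz d n z : ℝ) / μ ^ n ≤ ∑ n ∈ range M, (C d n : ℝ) / μ ^ n := by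
  rw [Finset.sum_comm]
  refine Finset.sum_le_sum (fun n _ => ?_)
  rw [← Finset.sum_div]
  apply div_le_div_of_nonneg_right _ (by positivity)
  exact_mod_cast sum_Cz_le n Y

/-- upper bound for the number of short walks -/
theorem short_bound (hd : 1 ≤ d) {μ γ : ℝ} (hμ1 : 1 ≤ μ) (hγ1 : 1 ≤ γ)
    (hγ : Tendsto (fun n : ℕ => Real.log (C d n / μ ^ n) / Real.log n) atTop (𝓝 (γ - 1)))
    (ε : ℝ) (hε : 0 < ε) : ∃ A : ℝ, 0 ≤ A ∧ ∀ M : ℕ,
      ∑ n ∈ range M, (C d n : ℝ) / μ ^ n ≤ A + (M : ℝ) ^ (γ + ε) := by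
  have e1 : ∀ᶠ n : ℕ in atTop, (C d n : ℝ) / μ ^ n ≤ (n : ℝ) ^ (γ - 1 + ε) := by
    filter_upwards [eventually_ge_atTop 2, hγ.eventually (gt_mem_nhds (by linarith :
      γ - 1 < γ - 1 + ε))] with n hn h
    apply le_rpow_of_log _ (by positivity) h
    exact_mod_cast hn
  obtain ⟨n0, hn0⟩ := Filter.eventually_atTop.1 e1
  refine ⟨∑ n ∈ range n0, (C d n : ℝ) / μ ^ n, Finset.sum_nonneg (fun n _ => by positivity),
    fun M => ?_⟩
  rcases Nat.eq_zero_or_pos M with rfl | hM
  · simp only [range_zero, sum_empty]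
    have : 0 ≤ ∑ n ∈ range n0, (C d n : ℝ) / μ ^ n := Finset.sum_nonneg (fun n _ => by positivity)
    have h2 : (0 : ℝ) ≤ ((0 : ℕ) : ℝ) ^ (γ + ε) := Real.rpow_nonneg (by simp) _
    exact add_nonneg this h2
  have hMr : (0 : ℝ) < M := by exact_mod_cast hM
  rw [← Finset.sum_filter_add_sum_filter_not (range M) (fun n => n < n0)]
  apply add_le_add
  · apply Finset.sum_le_sum_of_subset_of_nonneg
    · intro n hn; exact mem_range.2 (mem_filter.1 hn).2
    · intro n _ _; positivity
  · calc ∑ n ∈ (range M).filter (fun n => ¬ n < n0), (C d n : ℝ) / μ ^ n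
        ≤ ∑ n ∈ (range M).filter (fun n => ¬ n < n0), (M : ℝ) ^ (γ - 1 + ε) := by
          refine Finset.sum_le_sum (fun n hn => ?_)
          obtain ⟨h1, h2⟩ := mem_filter.1 hn
          refine (hn0 n (not_lt.1 h2)).trans ?_
          apply Real.rpow_le_rpow (by positivity) _ (by linarith)
          exact_mod_cast (mem_range.1 h1).le
      _ = (((range M).filter (fun n => ¬ n < n0)).card : ℝ) * (M : ℝ) ^ (γ - 1 + ε) := by
          rw [Finset.sum_const, nsmul_eq_mul]
      _ ≤ (M : ℝ) * (M : ℝ) ^ (γ - 1 + ε) := by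
          apply mul_le_mul_of_nonneg_right _ (by positivity)
          have := Finset.card_le_card (filter_subset (fun n => ¬ n < n0) (range M))
          rw [card_range] at this
          exact_mod_cast this
      _ = (M : ℝ) ^ (γ + ε) := by
          have : γ + ε = 1 + (γ - 1 + ε) := by ring
          rw [this, Real.rpow_add hMr 1 (γ - 1 + ε), Real.rpow_one]

end Pool.Agent.N516.FI
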