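import Pool.Agent.N516.FI.Walk

set_option autoImplicit false

namespace Pool.Agent.N516.FI

open Finset Filter Topology

variable {d : ℕ}

theorem pos_zero {n : ℕ} (s : Fin n → Step d) : pos s 0 = 0 := by
  unfold pos
  exact Finset.sum_eq_zero (fun i _ => if_neg (Nat.not_lt_zero _))

theorem nsq_nonneg (z : Fin d → ℤ) : 0 ≤ nsq z := Finset.sum_nonneg (fun i _ => sq_nonneg _)

theorem one_le_nsq {z : Fin d → ℤ} (hz : z ≠ 0) : 1 ≤ nsq z := by
  obtain ⟨i, hi⟩ := Function.ne_iff.1 hz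
  have h1 : (1 : ℝ) ≤ (z i : ℝ) ^ 2 := by
    have h2 : (1 : ℤ) ≤ (z i) ^ 2 := by
      have : z i ≠ 0 := hi
      have := sq_pos_of_ne_zero this
      linarith
    exact_mod_cast h2
  exact h1.trans (Finset.single_le_sum (f := fun j => (z j : ℝ) ^ 2) (fun j _ => sq_nonneg _)
    (mem_univ i))

theorem nsq_pos_of_mem {n : ℕ} (hn : 1 ≤ n) {s : Fin n → Step d} (hs : s ∈ Gam d n) :
    1 ≤ nsq (pos s n) := by
  classical
  apply one_le_nsq
  have h : SelfAvoiding s := (mem_filter.1 hs).2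
  have := h 0 n (by omega) (le_refl _)
  rw [pos_zero] at this
  exact this.symm

theorem msd_ge_one (hd : 1 ≤ d) {n : ℕ} (hn : 1 ≤ n) : 1 ≤ msd d n := by
  have hC : (0 : ℝ) < C d n := by exact_mod_cast C_pos hd n
  unfold msd
  rw [le_div_iff₀ hC, one_mul]
  calc (C d n : ℝ) = ∑ s ∈ Gam d n, (1 : ℝ) := by simp [C]
    _ ≤ _ := Finset.sum_le_sum (fun s hs => nsq_pos_of_mem hn hs)

open Classical in
theorem half (hd : 1 ≤ d) {n : ℕ} (hn : 1 ≤ n) {r : ℝ} (hr : 2 * msd d n ≤ r) :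
    (C d n : ℝ) ≤ 2 * (((Gam d n).filter (fun s => nsq (pos s n) ≤ r)).card : ℝ) := by
  have hC : (0 : ℝ) < C d n := by exact_mod_cast C_pos hd n
  have hm := msd_ge_one hd hn
  have h1 : (((Gam d n).filter (fun s => ¬ nsq (pos s n) ≤ r)).card : ℝ) * (2 * msd d n) ≤
      msd d n * C d n := by
    have h2 : msd d n * C d n = ∑ s ∈ Gam d n, nsq (pos s n) := by
      unfold msd; field_simp
    rw [h2]
    calc (((Gam d n).filter (fun s => ¬ nsq (pos s n) ≤ r)).card : ℝ) * (2 * msd d n)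
        = ∑ s ∈ (Gam d n).filter (fun s => ¬ nsq (pos s n) ≤ r), (2 * msd d n) := by
          rw [Finset.sum_const, nsmul_eq_mul]
      _ ≤ ∑ s ∈ (Gam d n).filter (fun s => ¬ nsq (pos s n) ≤ r), nsq (pos s n) := by
          refine Finset.sum_le_sum (fun s hs => ?_)
          have := (mem_filter.1 hs).2
          push Not at this
          linarith
      _ ≤ ∑ s ∈ Gam d n, nsq (pos s n) :=
          Finset.sum_le_sum_of_subset_of_nonneg (filter_subset _ _) (fun s _ _ => nsq_nonneg _)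
  have h3 : (((Gam d n).filter (fun s => ¬ nsq (pos s n) ≤ r)).card : ℝ) * 2 ≤ C d n := by
    have : (((Gam d n).filter (fun s => ¬ nsq (pos s n) ≤ r)).card : ℝ) * 2 * msd d n ≤
        C d n * msd d n := by linarith
    exact le_of_mul_le_mul_right this (by linarith)
  have h4 := Finset.card_filter_add_card_filter_not (s := Gam d n) (fun s => nsq (pos s n) ≤ r)
  have h5 : (((Gam d n).filter (fun s => nsq (pos s n) ≤ r)).card : ℝ) +
      (((Gam d n).filter (fun s => ¬ nsq (pos s n) ≤ r)).card : ℝ) = C d n := by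
    exact_mod_cast h4
  linarith

open Classical in
/-- the endpoints of walks with `N ≤ n ≤ 2 N` steps in the ball -/
noncomputable def Z (d N : ℕ) (r : ℝ) : Finset (Fin d → ℤ) :=
  (Icc N (2 * N)).biUnion (fun n => ((Gam d n).filter (fun s => nsq (pos s n) ≤ r)).image
    (fun s => pos s n))

theorem mem_Z {N : ℕ} {r : ℝ} {z : Fin d → ℤ} (hz : z ∈ Z d N r) : nsq z ≤ r := by
  classical
  unfold Z at hz
  obtain ⟨n, _, h⟩ := mem_biUnion.1 hz
  obtain ⟨s, hs, rfl⟩ := mem_image.1 h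
  exact (mem_filter.1 hs).2

open Classical in
theorem card_le {N n : ℕ} {r : ℝ} (hn : n ∈ Icc N (2 * N)) :
    (((Gam d n).filter (fun s => nsq (pos s n) ≤ r)).card : ℝ) ≤ ∑ z ∈ Z d N r, (Cz d n z : ℝ) := by
  have h1 : ((Gam d n).filter (fun s => nsq (pos s n) ≤ r)).card =
      ∑ z ∈ Z d N r, (((Gam d n).filter (fun s => nsq (pos s n) ≤ r)).filter
        (fun s => pos s n = z)).card := by
    apply Finset.card_eq_sum_card_fiberwise
    intro s hs
    exact mem_biUnion.2 ⟨n, hn, mem_image.2 ⟨s, hs, rfl⟩⟩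
  rw [h1]
  push_cast
  refine Finset.sum_le_sum (fun z _ => ?_)
  unfold Cz
  exact_mod_cast Finset.card_le_card (Finset.filter_subset_filter _ (filter_subset _ _))

theorem main_sum (hd : 1 ≤ d) {μ : ℝ} (hμ : 1 ≤ μ)
    (hs : ∀ z : Fin d → ℤ, Summable (fun n : ℕ => (Cz d n z : ℝ) / μ ^ n)) {N : ℕ} (hN : 1 ≤ N)
    {r : ℝ} (hr : ∀ n ∈ Icc N (2 * N), 2 * msd d n ≤ r) :
    ∑ n ∈ Icc N (2 * N), (C d n : ℝ) / μ ^ n ≤ 2 * ∑ z ∈ Z d N r, G d μ z := by
  have hμ0 : 0 < μ := by linarith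
  calc ∑ n ∈ Icc N (2 * N), (C d n : ℝ) / μ ^ n
      ≤ ∑ n ∈ Icc N (2 * N), (2 * ∑ z ∈ Z d N r, (Cz d n z : ℝ)) / μ ^ n := by
        refine Finset.sum_le_sum (fun n hn => ?_)
        have hn1 : 1 ≤ n := hN.trans (mem_Icc.1 hn).1
        apply div_le_div_of_nonneg_right _ (by positivity)
        exact (half hd hn1 (hr n hn)).trans (mul_le_mul_of_nonneg_left (card_le hn) (by norm_num))
    _ = 2 * ∑ z ∈ Z d N r, ∑ n ∈ Icc N (2 * N), (Cz d n z : ℝ) / μ ^ n := by
        rw [Finset.sum_comm, Finset.mul_sum]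
        refine Finset.sum_congr rfl (fun n _ => ?_)
        rw [mul_div_assoc, Finset.sum_div]
    _ ≤ 2 * ∑ z ∈ Z d N r, G d μ z := by
        apply mul_le_mul_of_nonneg_left _ (by norm_num)
        refine Finset.sum_le_sum (fun z _ => ?_)
        exact (hs z).sum_le_tsum _ (fun n _ => by positivity)

/-! ### summability of `|z|^(-d-ε)` -/

theorem summable_int {p : ℝ} (hp : 1 < p) :
    Summable (fun k : ℤ => (max 1 |(k : ℝ)|) ^ (-p)) := by
  have h : Summable (fun n : ℕ => (max 1 |((n : ℤ) : ℝ)|) ^ (-p)) := by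
    have h1 : Summable (fun n : ℕ => (n : ℝ) ^ (-p) + if n = 0 then (1 : ℝ) else 0) := by
      apply Summable.add
      · exact Real.summable_nat_rpow.2 (by linarith)
      · exact summable_of_ne_finset_zero (s := {0}) (fun n hn => by
          rw [if_neg]; simpa using hn)
    refine Summable.of_nonneg_of_le (fun n => by positivity) (fun n => ?_) h1
    rcases Nat.eq_zero_or_pos n with rfl | hn
    · simp only [Nat.cast_zero, Int.cast_zero, abs_zero, if_true]
      rw [max_eq_left (by norm_num), Real.one_rpow]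
      have : (0 : ℝ) ≤ (0 : ℝ) ^ (-p) := Real.rpow_nonneg (le_refl _) _
      linarith
    · have h2 : (1 : ℝ) ≤ n := by exact_mod_cast hn
      rw [Int.cast_natCast, abs_of_nonneg (by positivity), max_eq_right h2, if_neg (by omega),
        add_zero]
  refine Summable.of_nat_of_neg h ?_
  refine h.congr (fun n => ?_)
  push_cast
  rw [abs_neg]

theorem one_le_nrm {z : Fin d → ℤ} (hz : z ≠ 0) : 1 ≤ nrm z := by
  unfold nrm
  rw [Real.one_le_sqrt]
  exact one_le_nsq hz

theorem coord_le_nrm (z : Fin d → ℤ) (i : Fin d) : |(z i : ℝ)| ≤ nrm z := by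
  unfold nrm
  apply Real.le_sqrt_of_sq_le
  rw [sq_abs]
  exact Finset.single_le_sum (f := fun j => (z j : ℝ) ^ 2) (fun j _ => sq_nonneg _) (mem_univ i)

theorem sum_bound (d : ℕ) (hd : 1 ≤ d) (ε : ℝ) (hε : 0 < ε) : ∃ K : ℝ, 0 ≤ K ∧
    ∀ Y : Finset (Fin d → ℤ), (∀ z ∈ Y, z ≠ 0) → ∑ z ∈ Y, (nrm z) ^ (-((d : ℝ) + ε)) ≤ K := by
  classical
  have hd0 : (0 : ℝ) < d := by exact_mod_cast hd
  set p : ℝ := 1 + ε / d with hp
  have hp1 : 1 < p := by rw [hp]; have := div_pos hε hd0; linarith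
  have hsum := summable_int hp1
  set f : ℤ → ℝ := fun k => (max 1 |(k : ℝ)|) ^ (-p) with hf
  have hf0 : ∀ k, 0 ≤ f k := fun k => by rw [hf]; positivity
  refine ⟨(∑' k, f k) ^ d, pow_nonneg (tsum_nonneg hf0) _, fun Y hY => ?_⟩
  have h1 : ∀ z ∈ Y, (nrm z) ^ (-((d : ℝ) + ε)) ≤ ∏ i, f (z i) := by
    intro z hz
    have hn := one_le_nrm (hY z hz)
    have h2 : (nrm z) ^ (-((d : ℝ) + ε)) = ∏ _i : Fin d, (nrm z) ^ (-p) := by
      rw [Finset.prod_const, Finset.card_univ, Fintype.card_fin, ← Real.rpow_natCast,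
        ← Real.rpow_mul (by linarith)]
      congr 1
      rw [hp]; field_simp
    rw [h2]
    refine Finset.prod_le_prod (fun i _ => by positivity) (fun i _ => ?_)
    rw [hf]
    apply Real.rpow_le_rpow_of_nonpos (by positivity) (max_le hn (coord_le_nrm z i)) (by linarith)
  calc ∑ z ∈ Y, (nrm z) ^ (-((d : ℝ) + ε)) ≤ ∑ z ∈ Y, ∏ i, f (z i) := Finset.sum_le_sum h1
    _ ≤ ∑ z ∈ Fintype.piFinset (fun i => Y.image (fun z => z i)), ∏ i, f (z i) := by
        apply Finset.sum_le_sum_of_subset_of_nonneg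
        · intro z hz
          exact Fintype.mem_piFinset.2 (fun i => mem_image.2 ⟨z, hz, rfl⟩)
        · intro z _ _
          exact Finset.prod_nonneg (fun i _ => hf0 _)
    _ = ∏ i : Fin d, ∑ k ∈ Y.image (fun z => z i), f k := by
        rw [Finset.prod_univ_sum]
    _ ≤ ∏ _i : Fin d, ∑' k, f k := by
        refine Finset.prod_le_prod (fun i _ => Finset.sum_nonneg (fun k _ => hf0 k)) (fun i _ => ?_)
        exact hsum.sum_le_tsum _ (fun k _ => hf0 k)
    _ = (∑' k, f k) ^ d := by simp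

end Pool.Agent.N516.FI
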