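import Pool.Agent.N516.FI.Window

set_option autoImplicit false

namespace Pool.Agent.N516.FI

open Finset Filter Topology

variable {d : ℕ}

/-- the sum of the two-point function over the ball of radius `R` -/
noncomputable def total (d : ℕ) (μ : ℝ) (R : ℕ) : ℝ := ∑ z ∈ ball d R, G d μ z

/-- the part of `total` which comes from the walks with `n` steps, `a ≤ n < b` -/
noncomputable def part (d : ℕ) (μ : ℝ) (R a b : ℕ) : ℝ :=
  ∑ z ∈ ball d R, ∑ n ∈ Ico a b, (Cz d n z : ℝ) / μ ^ n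

theorem part_mono {μ : ℝ} (hμ : 1 ≤ μ) (R a b : ℕ) : part d μ R a b ≤ part d μ R 0 b := by
  unfold part
  refine Finset.sum_le_sum (fun z _ => ?_)
  apply Finset.sum_le_sum_of_subset_of_nonneg
  · intro n hn
    rw [mem_Ico] at hn ⊢
    exact ⟨Nat.zero_le _, hn.2⟩
  · intro n _ _; positivity

theorem ball_upper (hd : 1 ≤ d) {μ η : ℝ} (hμ : 1 ≤ μ)
    (hη : Tendsto (fun z : Fin d → ℤ => Real.log (G d μ z) / Real.log (nrm z)) cofinite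
      (𝓝 (-((d : ℝ) - 2 + η)))) (h2 : 0 < 2 - η) (ε : ℝ) (hε : 0 < ε) :
    ∃ K : ℝ, 0 ≤ K ∧ ∀ R : ℕ, 1 ≤ R → total d μ R ≤ K * (R : ℝ) ^ (2 - η + 2 * ε) := by
  obtain ⟨K0, K, hK0, hK, h⟩ := green hd hμ hη ε hε
  refine ⟨K0 + K, by positivity, fun R hR => ?_⟩
  have hRr : (1 : ℝ) ≤ R := by exact_mod_cast hR
  have hRp : (0 : ℝ) < R := by linarith
  have h3 := h ((R : ℝ) ^ 2) (ball d R) (one_le_pow₀ hRr) (fun z hz => mem_ball.1 hz)
  rw [max_eq_left (by linarith)] at h3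
  have h4 : ((R : ℝ) ^ 2) ^ ((2 - η + 2 * ε) / 2) = (R : ℝ) ^ (2 - η + 2 * ε) := by
    rw [← Real.rpow_natCast, ← Real.rpow_mul hRp.le]
    congr 1; push_cast; ring
  rw [h4] at h3
  have h5 : 1 ≤ (R : ℝ) ^ (2 - η + 2 * ε) := Real.one_le_rpow hRr (by linarith)
  have h6 : K0 ≤ K0 * (R : ℝ) ^ (2 - η + 2 * ε) := le_mul_of_one_le_right hK0 h5
  unfold total
  linarith

theorem mass_of_eq (hd : 1 ≤ d) {μ γ ν η : ℝ}
    (hμ : Tendsto (fun n : ℕ => (C d n : ℝ) ^ (1 / (n : ℝ))) atTop (𝓝 μ))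
    (hγ : Tendsto (fun n : ℕ => Real.log (C d n / μ ^ n) / Real.log n) atTop (𝓝 (γ - 1)))
    (hν : Tendsto (fun n : ℕ => Real.log (msd d n) / Real.log n) atTop (𝓝 (2 * ν)))
    (hη : Tendsto (fun z : Fin d → ℤ => Real.log (G d μ z) / Real.log (nrm z)) cofinite
      (𝓝 (-((d : ℝ) - 2 + η)))) (heq : γ = ν * (2 - η)) (δ : ℝ) (hδ : 0 < δ) (c : ℝ)
    (hc : 0 < c) :
    ∀ᶠ R : ℕ in atTop, (R : ℝ) ^ (-c) * total d μ R ≤
      part d μ R (⌊(R : ℝ) ^ ((1 - δ) / ν)⌋₊) (⌊(R : ℝ) ^ ((1 + δ) / ν)⌋₊) := by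
  obtain ⟨hμ1, hμ2⟩ := mu_pow_le hd hμ
  have hγ1 := gamma_ge_one hd hμ hγ
  have hν0 := nu_nonneg hd hν
  have hν1 : 0 < ν := by
    rcases hν0.eq_or_lt with h | h
    · rw [← h, zero_mul] at heq; linarith
    · exact h
  have h2 : 0 < 2 - η := by
    by_contra hcon
    have : ν * (2 - η) ≤ 0 := mul_nonpos_of_nonneg_of_nonpos hν0 (not_lt.1 hcon)
    linarith
  have hquot : γ / ν = 2 - η := by rw [heq]; field_simp
  obtain ⟨K, hK0, hK⟩ := ball_upper hd hμ1 hη h2 (c / 4) (by positivity)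
  filter_upwards [window_lower hd hμ hγ hν hν1 δ hδ (c / 4) (by positivity),
    ev_rpow (show 0 < c / 4 by positivity) K, eventually_ge_atTop 1] with R h3 h4 hR1
  have hRr : (1 : ℝ) ≤ R := by exact_mod_cast hR1
  have hRp : (0 : ℝ) < R := by linarith
  rw [hquot] at h3
  unfold part
  refine le_trans ?_ h3
  calc (R : ℝ) ^ (-c) * total d μ R ≤ (R : ℝ) ^ (-c) * (K * (R : ℝ) ^ (2 - η + 2 * (c / 4))) :=
        mul_le_mul_of_nonneg_left (hK R hR1) (by positivity)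
    _ ≤ (R : ℝ) ^ (-c) * ((R : ℝ) ^ (c / 4) * (R : ℝ) ^ (2 - η + 2 * (c / 4))) := by
        apply mul_le_mul_of_nonneg_left _ (by positivity)
        exact mul_le_mul_of_nonneg_right h4 (by positivity)
    _ = (R : ℝ) ^ (2 - η - c / 4) := by
        rw [← Real.rpow_add hRp, ← Real.rpow_add hRp]
        congr 1; ring

theorem short_of_lt (hd : 1 ≤ d) {μ γ ν η : ℝ}
    (hμ : Tendsto (fun n : ℕ => (C d n : ℝ) ^ (1 / (n : ℝ))) atTop (𝓝 μ))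
    (hγ : Tendsto (fun n : ℕ => Real.log (C d n / μ ^ n) / Real.log n) atTop (𝓝 (γ - 1)))
    (hν : Tendsto (fun n : ℕ => Real.log (msd d n) / Real.log n) atTop (𝓝 (2 * ν)))
    (hs : ∀ z : Fin d → ℤ, Summable (fun n : ℕ => (Cz d n z : ℝ) / μ ^ n))
    (hη : Tendsto (fun z : Fin d → ℤ => Real.log (G d μ z) / Real.log (nrm z)) cofinite
      (𝓝 (-((d : ℝ) - 2 + η)))) (hlt : γ < ν * (2 - η)) :
    ∃ δ c : ℝ, 0 < δ ∧ 0 < c ∧ ∀ᶠ R : ℕ in atTop,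
      part d μ R 0 (⌊(R : ℝ) ^ ((1 + δ) / ν)⌋₊) ≤ (R : ℝ) ^ (-c) * total d μ R := by
  obtain ⟨hμ1, hμ2⟩ := mu_pow_le hd hμ
  have hγ1 := gamma_ge_one hd hμ hγ
  have hν0 := nu_nonneg hd hν
  have hν1 : 0 < ν := by
    rcases hν0.eq_or_lt with h | h
    · rw [← h, zero_mul] at hlt; linarith
    · exact h
  have hlt' : γ / ν < 2 - η := by rw [div_lt_iff₀ hν1]; linarith
  -- choice of `δ`
  obtain ⟨δ, hδ0, hδ⟩ : ∃ δ > 0, (1 + δ) / ν * (γ + δ) + δ < 2 - η := by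
    have hc : Tendsto (fun δ : ℝ => (1 + δ) / ν * (γ + δ) + δ) (𝓝[>] 0)
        (𝓝 ((1 + 0) / ν * (γ + 0) + 0)) := by
      apply Tendsto.mono_left _ nhdsWithin_le_nhds
      exact Continuous.tendsto (by fun_prop) 0
    have h0 : (1 + 0) / ν * (γ + 0) + 0 < 2 - η := by
      have : (1 + 0) / ν * (γ + 0) + 0 = γ / ν := by ring
      rw [this]; exact hlt'
    have h1 := hc.eventually (gt_mem_nhds h0)
    obtain ⟨δ, h2, h3⟩ := (h1.and self_mem_nhdsWithin).exists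
    exact ⟨δ, h3, h2⟩
  obtain ⟨A, hA0, hA⟩ := short_bound hd hμ1 hγ1 hγ δ hδ0
  obtain ⟨κ, hκ0, hκ⟩ := ball_lower hd hμ1 hs hη δ hδ0
  set t : ℝ := (1 + δ) / ν * (γ + δ) with ht
  have ht0 : 0 < t := by rw [ht]; positivity
  set c : ℝ := (2 - η - δ - t) / 2 with hc
  have hc0 : 0 < c := by rw [hc]; linarith
  refine ⟨δ, c, hδ0, hc0, ?_⟩
  filter_upwards [hκ, ev_rpow hc0 ((A + 1) / κ), eventually_ge_atTop 1] with R hR hRc hR1
  have hRr : (1 : ℝ) ≤ R := by exact_mod_cast hR1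
  have hRp : (0 : ℝ) < R := by linarith
  have h1 : part d μ R 0 (⌊(R : ℝ) ^ ((1 + δ) / ν)⌋₊) ≤ (A + 1) * (R : ℝ) ^ t := by
    unfold part
    rw [Nat.Ico_zero_eq_range]
    refine (short_le hμ1 _ _).trans ((hA _).trans ?_)
    have h2 : ((⌊(R : ℝ) ^ ((1 + δ) / ν)⌋₊ : ℕ) : ℝ) ^ (γ + δ) ≤ (R : ℝ) ^ t := by
      rw [ht, Real.rpow_mul hRp.le]
      apply Real.rpow_le_rpow (by positivity) _ (by linarith)
      exact Nat.floor_le (by positivity)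
    have h3 : 1 ≤ (R : ℝ) ^ t := Real.one_le_rpow hRr ht0.le
    have h4 : A ≤ A * (R : ℝ) ^ t := le_mul_of_one_le_right hA0 h3
    linarith
  have h5 : A + 1 ≤ (R : ℝ) ^ c * κ := by rwa [div_le_iff₀ hκ0] at hRc
  refine h1.trans ?_
  calc (A + 1) * (R : ℝ) ^ t ≤ ((R : ℝ) ^ c * κ) * (R : ℝ) ^ t :=
        mul_le_mul_of_nonneg_right h5 (by positivity)
    _ = (R : ℝ) ^ (-c) * (κ * (R : ℝ) ^ (2 - η - δ)) := by
        have h6 : (R : ℝ) ^ (2 - η - δ) = (R : ℝ) ^ c * ((R : ℝ) ^ c * (R : ℝ) ^ t) := by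
          rw [← Real.rpow_add hRp, ← Real.rpow_add hRp]
          congr 1; rw [hc]; ring
        have h7 : (R : ℝ) ^ (-c) * (R : ℝ) ^ c = 1 := by
          rw [← Real.rpow_add hRp, neg_add_cancel, Real.rpow_zero]
        rw [h6]
        calc (R : ℝ) ^ c * κ * (R : ℝ) ^ t = 1 * ((R : ℝ) ^ c * κ * (R : ℝ) ^ t) := by ring
          _ = ((R : ℝ) ^ (-c) * (R : ℝ) ^ c) * ((R : ℝ) ^ c * κ * (R : ℝ) ^ t) := by rw [h7]
          _ = _ := by ring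
    _ ≤ (R : ℝ) ^ (-c) * total d μ R := mul_le_mul_of_nonneg_left hR (by positivity)

theorem total_pos {μ : ℝ} (hμ : 1 ≤ μ)
    (hs : ∀ z : Fin d → ℤ, Summable (fun n : ℕ => (Cz d n z : ℝ) / μ ^ n)) (R : ℕ) :
    0 < total d μ R := by
  have h0 : (0 : Fin d → ℤ) ∈ ball d R := by
    rw [mem_ball]; unfold nsq; simp
  exact lt_of_lt_of_le (G_pos hμ 0 (hs 0))
    (Finset.single_le_sum (f := fun z => G d μ z) (fun z _ => G_nonneg hμ z) h0)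

theorem crit (hd : 1 ≤ d) {μ γ ν η : ℝ}
    (hμ : Tendsto (fun n : ℕ => (C d n : ℝ) ^ (1 / (n : ℝ))) atTop (𝓝 μ))
    (hγ : Tendsto (fun n : ℕ => Real.log (C d n / μ ^ n) / Real.log n) atTop (𝓝 (γ - 1)))
    (hν : Tendsto (fun n : ℕ => Real.log (msd d n) / Real.log n) atTop (𝓝 (2 * ν)))
    (hs : ∀ z : Fin d → ℤ, Summable (fun n : ℕ => (Cz d n z : ℝ) / μ ^ n))
    (hη : Tendsto (fun z : Fin d → ℤ => Real.log (G d μ z) / Real.log (nrm z)) cofinite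
      (𝓝 (-((d : ℝ) - 2 + η)))) :
    γ = ν * (2 - η) ↔ ∀ δ c : ℝ, 0 < δ → 0 < c → ∀ᶠ R : ℕ in atTop,
      (R : ℝ) ^ (-c) * total d μ R ≤
      part d μ R (⌊(R : ℝ) ^ ((1 - δ) / ν)⌋₊) (⌊(R : ℝ) ^ ((1 + δ) / ν)⌋₊) := by
  obtain ⟨hμ1, hμ2⟩ := mu_pow_le hd hμ
  constructor
  · intro heq δ c hδ hc
    exact mass_of_eq hd hμ hγ hν hη heq δ hδ c hc
  · intro h
    by_contra hne
    have hlt : γ < ν * (2 - η) := lt_of_le_of_ne (fisher hd hμ hγ hν hs hη) hne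
    obtain ⟨δ, c, hδ, hc, h1⟩ := short_of_lt hd hμ hγ hν hs hη hlt
    have h2 := h δ (c / 2) hδ (by positivity)
    obtain ⟨R, h3, h4, h5⟩ := (h1.and (h2.and (eventually_ge_atTop 2))).exists
    have hRr : (2 : ℝ) ≤ R := by exact_mod_cast h5
    have h6 := total_pos hμ1 hs R
    have h7 : (R : ℝ) ^ (-(c / 2)) * total d μ R ≤ (R : ℝ) ^ (-c) * total d μ R :=
      h4.trans ((part_mono hμ1 R _ _).trans h3)
    have h8 := le_of_mul_le_mul_right h7 h6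
    have h9 : (R : ℝ) ^ (-c) < (R : ℝ) ^ (-(c / 2)) :=
      Real.rpow_lt_rpow_of_exponent_lt (by linarith) (by linarith)
    linarith

end Pool.Agent.N516.FI
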