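import Mathlib

set_option autoImplicit false

/-!
# Self-avoiding walks on `ℤ^d`

A nearest-neighbour walk with `n` steps from the origin is given by its steps.
-/

namespace Pool.Agent.N516.FI

open Finset

/-- the steps `e_i` and `-e_i` -/
abbrev Step (d : ℕ) := Fin d × Bool

/-- the unit vector of a step -/
def vec {d : ℕ} (s : Step d) : Fin d → ℤ := Pi.single s.1 (if s.2 then 1 else -1)

/-- the position after `k` steps of the walk with the steps `s` which starts at the origin -/
def pos {d n : ℕ} (s : Fin n → Step d) (k : ℕ) : Fin d → ℤ :=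
  ∑ i : Fin n, if (i : ℕ) < k then vec (s i) else 0

/-- the walk with the steps `s` is self-avoiding -/
def SelfAvoiding {d n : ℕ} (s : Fin n → Step d) : Prop :=
  ∀ j k : ℕ, j < k → k ≤ n → pos s j ≠ pos s k

open Classical in
/-- the set `Γ_n` of the self-avoiding walks with `n` steps from the origin -/
noncomputable def Gam (d n : ℕ) : Finset (Fin n → Step d) :=
  univ.filter (fun s => SelfAvoiding s)

/-- the number `C_n` of the self-avoiding walks with `n` steps -/
noncomputable def C (d n : ℕ) : ℕ := (Gam d n).card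

open Classical in
/-- the number `C_n(z)` of the self-avoiding walks with `n` steps from `0` to `z` -/
noncomputable def Cz (d n : ℕ) (z : Fin d → ℤ) : ℕ := ((Gam d n).filter (fun s => pos s n = z)).card

/-- the square `|z|²` of the Euclidean norm -/
def nsq {d : ℕ} (z : Fin d → ℤ) : ℝ := ∑ i, (z i : ℝ) ^ 2

/-- the Euclidean norm -/
noncomputable def nrm {d : ℕ} (z : Fin d → ℤ) : ℝ := Real.sqrt (nsq z)

/-- the mean square displacement `⟨|ω(n)|²⟩` of the uniform measure on `Γ_n` -/
noncomputable def msd (d n : ℕ) : ℝ := (∑ s ∈ Gam d n, nsq (pos s n)) / C d n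

/-- the two-point function `∑_n μ^(-n) C_n(z)` -/
noncomputable def G (d : ℕ) (μ : ℝ) (z : Fin d → ℤ) : ℝ := ∑' n : ℕ, (Cz d n z : ℝ) / μ ^ n

end Pool.Agent.N516.FI
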