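import Pool.Agent.N516.FI.Ball

set_option autoImplicit false

namespace Pool.Agent.N516.FI

open Finset Filter Topology

variable {d : ℕ}

theorem toNat_aux (L : ℕ) : (2 * (L : ℤ) + 1 - L).toNat = L + 1 := by omega

theorem rpow_lower {x R K c : ℝ} (hR : 0 < R) (hK : 1 ≤ K) (h1 : R / K ≤ x) (h2 : x ≤ R) :
    K ^ (-|c|) * R ^ c ≤ x ^ c := by
  have hK0 : 0 < K := by linarith
  have hx : 0 < x := lt_of_lt_of_le (by positivity) h1
  rcases le_total 0 c with hc | hc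
  · rw [abs_of_nonneg hc, Real.rpow_neg hK0.le, inv_mul_eq_div, ← Real.div_rpow hR.le hK0.le]
    exact Real.rpow_le_rpow (by positivity) h1 hc
  · have h3 : K ^ (-|c|) ≤ 1 := Real.rpow_le_one_of_one_le_of_nonpos hK (by
      have := abs_nonneg c; linarith)
    have h4 : R ^ c ≤ x ^ c := Real.rpow_le_rpow_of_nonpos hx h2 hc
    have h5 : 0 ≤ R ^ c := by positivity
    calc K ^ (-|c|) * R ^ c ≤ 1 * R ^ c := mul_le_mul_of_nonneg_right h3 h5
      _ ≤ x ^ c := by rw [one_mul]; exact h4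

/-- lower bound for the sum of the two-point function over balls -/
theorem ball_lower (hd : 1 ≤ d) {μ η : ℝ} (hμ : 1 ≤ μ)
    (hs : ∀ z : Fin d → ℤ, Summable (fun n : ℕ => (Cz d n z : ℝ) / μ ^ n))
    (hη : Tendsto (fun z : Fin d → ℤ => Real.log (G d μ z) / Real.log (nrm z)) cofinite
      (𝓝 (-((d : ℝ) - 2 + η)))) (ε : ℝ) (hε : 0 < ε) :
    ∃ κ : ℝ, 0 < κ ∧ ∀ᶠ R : ℕ in atTop, κ * (R : ℝ) ^ (2 - η - ε) ≤ ∑ z ∈ ball d R, G d μ z := by
  classical
  have hd0 : (0 : ℝ) < d := by exact_mod_cast hd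
  have hd1 : (1 : ℝ) ≤ d := by exact_mod_cast hd
  have hev : ∀ᶠ z : Fin d → ℤ in cofinite, (nrm z) ^ (-((d : ℝ) - 2 + η) - ε) ≤ G d μ z := by
    filter_upwards [eventually_one_lt_nrm, hη.eventually (lt_mem_nhds (by linarith :
      -((d : ℝ) - 2 + η) - ε < -((d : ℝ) - 2 + η)))] with z h1 h2
    exact rpow_le_of_log h1 (G_pos hμ z (hs z)) h2
  rw [Filter.eventually_cofinite] at hev
  obtain ⟨ρ, hρ⟩ : ∃ ρ : ℝ, ∀ z : Fin d → ℤ, ρ < nrm z →
      (nrm z) ^ (-((d : ℝ) - 2 + η) - ε) ≤ G d μ z := by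
    obtain ⟨ρ, h⟩ := (hev.toFinset.image nrm).exists_le
    refine ⟨ρ, fun z hz => ?_⟩
    by_contra hcon
    exact absurd (h (nrm z) (mem_image.2 ⟨z, hev.mem_toFinset.2 hcon, rfl⟩)) (not_le.2 hz)
  set c : ℝ := -((d : ℝ) - 2 + η) - ε with hc
  refine ⟨(1 / (2 * d)) ^ d * (4 * d : ℝ) ^ (-|c|), by positivity, ?_⟩
  filter_upwards [eventually_ge_atTop (4 * d), (tendsto_natCast_atTop_atTop (R := ℝ)).eventually_gt_atTop
    (4 * d * max ρ 0 + 4 * d)] with R hR hR2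
  set L : ℕ := R / (2 * d) with hL
  have hRr : (4 * d : ℝ) ≤ R := by exact_mod_cast hR
  have hRp : (0 : ℝ) < R := by linarith
  have hL1 : (R : ℝ) / (2 * d) ≤ L + 1 := by
    rw [div_le_iff₀ (by positivity)]
    have h1 : R < (L + 1) * (2 * d) := by
      have h2 := Nat.div_add_mod R (2 * d)
      have h3 := Nat.mod_lt R (show 0 < 2 * d by omega)
      rw [← hL] at h2
      have h4 : (L + 1) * (2 * d) = 2 * d * L + 2 * d := by ring
      rw [h4]
      omega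
    exact_mod_cast h1.le
  have hL2 : (L : ℝ) * (2 * d) ≤ R := by
    have := Nat.div_mul_le_self R (2 * d)
    exact_mod_cast this
  have hL3 : (R : ℝ) / (4 * d) ≤ L := by
    have h1 : (R : ℝ) / (4 * d) = (R / (2 * d)) / 2 := by field_simp; ring
    have h2 : (1 : ℝ) ≤ R / (4 * d) := by rw [one_le_div (by positivity)]; exact hRr
    linarith
  -- the box
  have hbox : Fintype.piFinset (fun _ : Fin d => Icc (L : ℤ) (2 * L)) ⊆ ball d R := by
    intro z hz
    rw [Fintype.mem_piFinset] at hz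
    rw [mem_ball]
    have h1 : ∀ i, (z i : ℝ) ^ 2 ≤ (2 * L) ^ 2 := by
      intro i
      have h2 := mem_Icc.1 (hz i)
      have h3 : (0 : ℝ) ≤ z i := by
        have : (0 : ℤ) ≤ z i := by omega
        exact_mod_cast this
      have h4 : (z i : ℝ) ≤ 2 * L := by exact_mod_cast h2.2
      exact pow_le_pow_left₀ h3 h4 2
    have h5 : nsq z ≤ d * (2 * L : ℝ) ^ 2 := by
      unfold nsq
      calc ∑ i, (z i : ℝ) ^ 2 ≤ ∑ _i : Fin d, (2 * L : ℝ) ^ 2 := Finset.sum_le_sum (fun i _ => h1 i)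
        _ = _ := by simp
    refine h5.trans ?_
    have h6 : (d : ℝ) * (2 * L) ^ 2 ≤ (L * (2 * d)) ^ 2 := by
      have : ((L : ℝ) * (2 * d)) ^ 2 = d * (d * (2 * L) ^ 2) := by ring
      rw [this]
      apply mul_le_mul_of_nonneg_left _ hd0.le
      nlinarith [sq_nonneg (2 * (L : ℝ))]
    exact h6.trans (pow_le_pow_left₀ (by positivity) hL2 2)
  calc (1 / (2 * d)) ^ d * (4 * d : ℝ) ^ (-|c|) * (R : ℝ) ^ (2 - η - ε)
      = ((R : ℝ) / (2 * d)) ^ d * ((4 * d : ℝ) ^ (-|c|) * (R : ℝ) ^ c) := by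
        have h1 : (R : ℝ) ^ (2 - η - ε) = (R : ℝ) ^ d * (R : ℝ) ^ c := by
          rw [← Real.rpow_natCast, ← Real.rpow_add hRp]
          congr 1; rw [hc]; ring
        rw [h1, div_pow, div_pow, one_pow]
        ring
    _ ≤ ((L : ℝ) + 1) ^ d * ((4 * d : ℝ) ^ (-|c|) * (R : ℝ) ^ c) :=
        mul_le_mul_of_nonneg_right (pow_le_pow_left₀ (by positivity) hL1 d) (by positivity)
    _ = ∑ _z ∈ Fintype.piFinset (fun _ : Fin d => Icc (L : ℤ) (2 * L)),
          ((4 * d : ℝ) ^ (-|c|) * (R : ℝ) ^ c) := by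
        rw [Finset.sum_const, Fintype.card_piFinset, nsmul_eq_mul]
        congr 1
        simp only [Finset.prod_const, Finset.card_univ, Fintype.card_fin, Int.card_Icc]
        push_cast
        congr 1
        have : (2 * (L : ℤ) + 1 - L).toNat = L + 1 := toNat_aux L
        rw [this]; push_cast; ring
    _ ≤ ∑ z ∈ Fintype.piFinset (fun _ : Fin d => Icc (L : ℤ) (2 * L)), G d μ z := by
        refine Finset.sum_le_sum (fun z hz => ?_)
        have hzi := Fintype.mem_piFinset.1 hz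
        have h1 : (L : ℝ) ≤ nrm z := by
          have h2 := mem_Icc.1 (hzi ⟨0, hd⟩)
          refine le_trans ?_ (coord_le_nrm z ⟨0, hd⟩)
          refine le_trans ?_ (le_abs_self _)
          exact_mod_cast h2.1
        have h3 : nrm z ≤ R := by
          unfold nrm
          rw [Real.sqrt_le_left (by positivity)]
          exact mem_ball.1 (hbox hz)
        refine (rpow_lower hRp (by linarith) (hL3.trans h1) h3).trans (hρ z ?_)
        have h4 : max ρ 0 < (R : ℝ) / (4 * d) := by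
          rw [lt_div_iff₀ (by positivity)]; nlinarith
        exact lt_of_le_of_lt (le_max_left _ _) (h4.trans_le (hL3.trans h1))
    _ ≤ ∑ z ∈ ball d R, G d μ z :=
        Finset.sum_le_sum_of_subset_of_nonneg hbox (fun z _ _ => G_nonneg hμ z)

theorem folded (hd : 1 ≤ d) {μ γ ν η : ℝ}
    (hμ : Tendsto (fun n : ℕ => (C d n : ℝ) ^ (1 / (n : ℝ))) atTop (𝓝 μ))
    (hγ : Tendsto (fun n : ℕ => Real.log (C d n / μ ^ n) / Real.log n) atTop (𝓝 (γ - 1)))
    (hν : Tendsto (fun n : ℕ => Real.log (msd d n) / Real.log n) atTop (𝓝 (2 * ν)))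
    (hs : ∀ z : Fin d → ℤ, Summable (fun n : ℕ => (Cz d n z : ℝ) / μ ^ n))
    (hη : Tendsto (fun z : Fin d → ℤ => Real.log (G d μ z) / Real.log (nrm z)) cofinite
      (𝓝 (-((d : ℝ) - 2 + η)))) (hlt : γ < ν * (2 - η)) :
    ∃ δ > 0, Tendsto (fun R : ℕ => (∑ z ∈ ball d R, ∑ n ∈ range (⌊(R : ℝ) ^ ((1 + δ) / ν)⌋₊),
      (Cz d n z : ℝ) / μ ^ n) / ∑ z ∈ ball d R, G d μ z) atTop (𝓝 0) := by
  obtain ⟨hμ1, hμ2⟩ := mu_pow_le hd hμ
  have hγ1 := gamma_ge_one hd hμ hγ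
  have hν0 := nu_nonneg hd hν
  have hν1 : 0 < ν := by
    rcases hν0.eq_or_lt with h | h
    · rw [← h, zero_mul] at hlt; linarith
    · exact h
  have hlt' : γ / ν < 2 - η := by rw [div_lt_iff₀ hν1]; linarith
  -- choice of `δ`
  obtain ⟨δ, hδ0, hδ⟩ : ∃ δ > 0, (1 + δ) / ν * (γ + δ) + δ < 2 - η := by
    have hc : Tendsto (fun δ : ℝ => (1 + δ) / ν * (γ + δ) + δ) (𝓝[>] 0)
        (𝓝 ((1 + 0) / ν * (γ + 0) + 0)) := by
      apply Tendsto.mono_left _ nhdsWithin_le_nhds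
      exact Continuous.tendsto (by fun_prop) 0
    have h0 : (1 + 0) / ν * (γ + 0) + 0 < 2 - η := by
      have : (1 + 0) / ν * (γ + 0) + 0 = γ / ν := by ring
      rw [this]; exact hlt'
    have h1 := hc.eventually (gt_mem_nhds h0)
    obtain ⟨δ, h2, h3⟩ := (h1.and self_mem_nhdsWithin).exists
    exact ⟨δ, h3, h2⟩
  refine ⟨δ, hδ0, ?_⟩
  obtain ⟨A, hA0, hA⟩ := short_bound hd hμ1 hγ1 hγ δ hδ0
  obtain ⟨κ, hκ0, hκ⟩ := ball_lower hd hμ1 hs hη δ hδ0
  set t : ℝ := (1 + δ) / ν * (γ + δ) with ht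
  have ht0 : 0 < t := by rw [ht]; positivity
  -- comparison function
  have hlim : Tendsto (fun R : ℕ => (A + 1) / κ * (R : ℝ) ^ (-(2 - η - δ - t))) atTop (𝓝 0) := by
    have h1 : Tendsto (fun R : ℕ => (R : ℝ) ^ (-(2 - η - δ - t))) atTop (𝓝 0) :=
      (tendsto_rpow_neg_atTop (by linarith)).comp tendsto_natCast_atTop_atTop
    simpa using h1.const_mul ((A + 1) / κ)
  refine squeeze_zero' ?_ ?_ hlim
  · filter_upwards with R
    apply div_nonneg
    · exact Finset.sum_nonneg (fun z _ => Finset.sum_nonneg (fun n _ => by positivity))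
    · exact Finset.sum_nonneg (fun z _ => G_nonneg hμ1 z)
  · filter_upwards [hκ, eventually_ge_atTop 1] with R hR hR1
    have hRr : (1 : ℝ) ≤ R := by exact_mod_cast hR1
    have hRp : (0 : ℝ) < R := by linarith
    have h1 : ∑ z ∈ ball d R, ∑ n ∈ range (⌊(R : ℝ) ^ ((1 + δ) / ν)⌋₊), (Cz d n z : ℝ) / μ ^ n ≤
        (A + 1) * (R : ℝ) ^ t := by
      refine (short_le hμ1 _ _).trans ((hA _).trans ?_)
      have h2 : ((⌊(R : ℝ) ^ ((1 + δ) / ν)⌋₊ : ℕ) : ℝ) ^ (γ + δ) ≤ (R : ℝ) ^ t := by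
        rw [ht, Real.rpow_mul hRp.le]
        apply Real.rpow_le_rpow (by positivity) _ (by linarith)
        exact Nat.floor_le (by positivity)
      have h3 : 1 ≤ (R : ℝ) ^ t := Real.one_le_rpow hRr ht0.le
      have h4 : A ≤ A * (R : ℝ) ^ t := le_mul_of_one_le_right hA0 h3
      linarith
    have hden : 0 < κ * (R : ℝ) ^ (2 - η - δ) := by positivity
    calc (∑ z ∈ ball d R, ∑ n ∈ range (⌊(R : ℝ) ^ ((1 + δ) / ν)⌋₊), (Cz d n z : ℝ) / μ ^ n) /
          ∑ z ∈ ball d R, G d μ z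
        ≤ ((A + 1) * (R : ℝ) ^ t) / (κ * (R : ℝ) ^ (2 - η - δ)) := by
          apply div_le_div₀ (by positivity) h1 hden hR
      _ = (A + 1) / κ * (R : ℝ) ^ (-(2 - η - δ - t)) := by
          have : -(2 - η - δ - t) = t - (2 - η - δ) := by ring
          rw [this, Real.rpow_sub hRp t (2 - η - δ)]
          have hne : (R : ℝ) ^ (2 - η - δ) ≠ 0 := (Real.rpow_pos_of_pos hRp _).ne'
          generalize (R : ℝ) ^ (2 - η - δ) = y at hne ⊢
          generalize (R : ℝ) ^ t = w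
          field_simp

end Pool.Agent.N516.FI
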