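import Pool.Agent.N516.FI.Defs

set_option autoImplicit false

namespace Pool.Agent.N516.FI

open Finset Filter Topology

variable {d : ℕ}

theorem pos_castAdd {n m : ℕ} (s : Fin (n + m) → Step d) (k : ℕ) (hk : k ≤ n) :
    pos (fun i => s (Fin.castAdd m i)) k = pos s k := by
  unfold pos
  rw [Fin.sum_univ_add]
  have h1 : ∑ i : Fin m, (if ((Fin.natAdd n i : Fin (n + m)) : ℕ) < k then vec (s (Fin.natAdd n i)) else 0)
      = 0 := Finset.sum_eq_zero (fun i _ => by
        rw [if_neg]; simp only [Fin.val_natAdd, not_lt]; omega)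
  rw [h1, add_zero]
  rfl

theorem pos_natAdd {n m : ℕ} (s : Fin (n + m) → Step d) (k : ℕ) :
    pos s (n + k) = pos s n + pos (fun i => s (Fin.natAdd n i)) k := by
  unfold pos
  rw [Fin.sum_univ_add, Fin.sum_univ_add]
  have h1 : ∑ i : Fin m, (if ((Fin.natAdd n i : Fin (n + m)) : ℕ) < n then vec (s (Fin.natAdd n i)) else 0)
      = 0 := Finset.sum_eq_zero (fun i _ => by
        rw [if_neg]; simp only [Fin.val_natAdd, not_lt]; omega)
  rw [h1, add_zero]
  congr 1
  · refine Finset.sum_congr rfl (fun i _ => ?_)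
    have := i.2
    rw [if_pos (by simp only [Fin.val_castAdd]; omega), if_pos (by simp only [Fin.val_castAdd]; omega)]
  · refine Finset.sum_congr rfl (fun i _ => ?_)
    have : ((Fin.natAdd n i : Fin (n + m)) : ℕ) < n + k ↔ (i : ℕ) < k := by
      simp only [Fin.val_natAdd]; omega
    simp only [this]

theorem C_mul_le (d n m : ℕ) : C d (n + m) ≤ C d n * C d m := by
  classical
  unfold C
  rw [← Finset.card_product]
  apply Finset.card_le_card_of_injOn
    (fun s => ((fun i => s (Fin.castAdd m i)), (fun i => s (Fin.natAdd n i))))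
  · intro s hs
    have hs' : SelfAvoiding s := (mem_filter.1 hs).2
    rw [Finset.mem_coe, mem_product]
    refine ⟨mem_filter.2 ⟨mem_univ _, ?_⟩, mem_filter.2 ⟨mem_univ _, ?_⟩⟩
    · intro j k hjk hk
      show pos (fun i => s (Fin.castAdd m i)) j ≠ pos (fun i => s (Fin.castAdd m i)) k
      rw [pos_castAdd s j (by omega), pos_castAdd s k hk]
      exact hs' j k hjk (by omega)
    · intro j k hjk hk
      show pos (fun i => s (Fin.natAdd n i)) j ≠ pos (fun i => s (Fin.natAdd n i)) k
      intro h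
      apply hs' (n + j) (n + k) (by omega) (by omega)
      rw [pos_natAdd, pos_natAdd, h]
  · intro s _ s' _ h
    have h1 := congrArg Prod.fst h
    have h2 := congrArg Prod.snd h
    funext i
    refine Fin.addCases (fun j => ?_) (fun j => ?_) i
    · exact congrFun h1 j
    · exact congrFun h2 j

theorem C_pos (hd : 1 ≤ d) (n : ℕ) : 1 ≤ C d n := by
  classical
  unfold C
  rw [Nat.one_le_iff_ne_zero, ← Nat.pos_iff_ne_zero, Finset.card_pos]
  refine ⟨fun _ => (⟨0, hd⟩, true), mem_filter.2 ⟨mem_univ _, ?_⟩⟩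
  have h1 : ∀ k ≤ n, pos (fun _ : Fin n => ((⟨0, hd⟩, true) : Step d)) k ⟨0, hd⟩ = (k : ℤ) := by
    intro k hk
    unfold pos
    rw [Finset.sum_apply]
    have : ∀ i : Fin n, (if (i : ℕ) < k then vec ((⟨0, hd⟩, true) : Step d) else 0) ⟨0, hd⟩ =
        if (i : ℕ) < k then (1 : ℤ) else 0 := by
      intro i
      split_ifs
      · simp [vec]
      · rfl
    rw [Finset.sum_congr rfl (fun i _ => this i), Finset.sum_boole]
    congr 1
    have h2 : (univ.filter (fun i : Fin n => (i : ℕ) < k)).card = k := by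
      have := Fin.card_filter_val_lt (n := n) (m := k)
      rw [this]; omega
    exact h2
  intro j k hjk hk h
  have := congrFun h ⟨0, hd⟩
  rw [h1 j (by omega), h1 k hk] at this
  omega

theorem C_pow_le (d n k : ℕ) (hk : 1 ≤ k) : C d (k * n) ≤ C d n ^ k := by
  induction k, hk using Nat.le_induction with
  | base => simp
  | succ k hk ih =>
    rw [Nat.succ_mul, pow_succ]
    exact (C_mul_le d _ _).trans (Nat.mul_le_mul_right _ ih)

theorem mu_pow_le (hd : 1 ≤ d) {μ : ℝ}
    (hμ : Tendsto (fun n : ℕ => (C d n : ℝ) ^ (1 / (n : ℝ))) atTop (𝓝 μ)) :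
    1 ≤ μ ∧ ∀ n, μ ^ n ≤ C d n := by
  have hC : ∀ n, (1 : ℝ) ≤ C d n := fun n => by exact_mod_cast C_pos hd n
  have h1 : 1 ≤ μ := ge_of_tendsto hμ (Eventually.of_forall (fun n =>
    Real.one_le_rpow (hC n) (by positivity)))
  refine ⟨h1, fun n => ?_⟩
  rcases Nat.eq_zero_or_pos n with rfl | hn
  · simpa using hC 0
  have h2 : μ ≤ (C d n : ℝ) ^ (1 / (n : ℝ)) := by
    have ht : Tendsto (fun k : ℕ => k * n) atTop atTop :=
      tendsto_id.atTop_mul_const' hn
    refine le_of_tendsto (hμ.comp ht) ?_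
    filter_upwards [eventually_ge_atTop 1] with k hk
    have hkn : (0 : ℝ) < k := by exact_mod_cast hk
    have hnn : (0 : ℝ) < n := by exact_mod_cast hn
    show (C d (k * n) : ℝ) ^ (1 / ((k * n : ℕ) : ℝ)) ≤ _
    calc (C d (k * n) : ℝ) ^ (1 / ((k * n : ℕ) : ℝ))
        ≤ ((C d n : ℝ) ^ k) ^ (1 / ((k * n : ℕ) : ℝ)) := by
          apply Real.rpow_le_rpow (by positivity) _ (by positivity)
          exact_mod_cast C_pow_le d n k hk
      _ = (C d n : ℝ) ^ (1 / (n : ℝ)) := by
          rw [← Real.rpow_natCast, ← Real.rpow_mul (by positivity)]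
          congr 1
          push_cast
          field_simp
  calc μ ^ n ≤ ((C d n : ℝ) ^ (1 / (n : ℝ))) ^ n := pow_le_pow_left₀ (by linarith) h2 n
    _ = C d n := by
      rw [← Real.rpow_natCast, ← Real.rpow_mul (by positivity), one_div,
        inv_mul_cancel₀ (by exact_mod_cast hn.ne'), Real.rpow_one]

end Pool.Agent.N516.FI
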