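import Pool.Agent.N516.FI.Fin

set_option autoImplicit false

namespace Pool.Agent.N516.FI

open Finset Filter Topology

variable {d : ℕ}

/-- lower bound for the number of walks with `N ≤ n ≤ 2 N` steps -/
theorem lower_sum (hd : 1 ≤ d) {μ γ : ℝ} (hμ1 : 1 ≤ μ) (hγ1 : 1 ≤ γ)
    (hγ : Tendsto (fun n : ℕ => Real.log (C d n / μ ^ n) / Real.log n) atTop (𝓝 (γ - 1)))
    (ε : ℝ) (hε : 0 < ε) : ∃ n0 : ℕ, ∀ N : ℕ, n0 ≤ N → 1 ≤ N →
      (N : ℝ) ^ (γ - ε) * (2 : ℝ) ^ (-ε) ≤ ∑ n ∈ Icc N (2 * N), (C d n : ℝ) / μ ^ n := by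
  have e1 : ∀ᶠ n : ℕ in atTop, (n : ℝ) ^ (γ - 1 - ε) ≤ (C d n : ℝ) / μ ^ n := by
    filter_upwards [eventually_ge_atTop 2, hγ.eventually (lt_mem_nhds (by linarith :
      γ - 1 - ε < γ - 1))] with n hn h
    apply rpow_le_of_log _ _ h
    · exact_mod_cast hn
    · have : 0 < C d n := C_pos hd n
      positivity
  obtain ⟨n0, hn0⟩ := Filter.eventually_atTop.1 e1
  refine ⟨n0, fun N hN0 hN1 => ?_⟩
  have hNr : (1 : ℝ) ≤ N := by exact_mod_cast hN1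
  have hNp : (0 : ℝ) < N := by linarith
  have h5 : ∀ n ∈ Icc N (2 * N), (N : ℝ) ^ (γ - 1) * (2 * (N : ℝ)) ^ (-ε) ≤
      (C d n : ℝ) / μ ^ n := by
    intro n hn
    obtain ⟨ha, hb⟩ := mem_Icc.1 hn
    have har : (N : ℝ) ≤ n := by exact_mod_cast ha
    have hbr : (n : ℝ) ≤ 2 * N := by exact_mod_cast hb
    have hnp : (0 : ℝ) < n := by linarith
    refine le_trans ?_ (hn0 n (by omega))
    have : γ - 1 - ε = (γ - 1) + (-ε) := by ring
    rw [this, Real.rpow_add hnp]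
    apply mul_le_mul
    · exact Real.rpow_le_rpow hNp.le har (by linarith)
    · exact Real.rpow_le_rpow_of_nonpos hnp hbr (by linarith)
    · positivity
    · positivity
  have h6 := Finset.card_nsmul_le_sum (Icc N (2 * N)) (fun n => (C d n : ℝ) / μ ^ n)
    ((N : ℝ) ^ (γ - 1) * (2 * (N : ℝ)) ^ (-ε)) h5
  refine le_trans ?_ h6
  rw [nsmul_eq_mul, Nat.card_Icc]
  have h7 : (N : ℝ) ≤ ((2 * N + 1 - N : ℕ) : ℝ) := by
    have : N ≤ 2 * N + 1 - N := by omega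
    exact_mod_cast this
  have h8 : (N : ℝ) ^ (γ - ε) * (2 : ℝ) ^ (-ε) =
      (N : ℝ) * ((N : ℝ) ^ (γ - 1) * (2 * (N : ℝ)) ^ (-ε)) := by
    rw [Real.mul_rpow (by norm_num) hNp.le]
    have : γ - ε = 1 + ((γ - 1) + (-ε)) := by ring
    rw [this, Real.rpow_add hNp, Real.rpow_add hNp, Real.rpow_one]
    ring
  rw [h8]
  exact mul_le_mul_of_nonneg_right h7 (by positivity)

theorem msd_upper (hd : 1 ≤ d) {ν : ℝ}
    (hν : Tendsto (fun n : ℕ => Real.log (msd d n) / Real.log n) atTop (𝓝 (2 * ν)))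
    (ε : ℝ) (hε : 0 < ε) : ∃ n0 : ℕ, ∀ n : ℕ, n0 ≤ n → msd d n ≤ (n : ℝ) ^ (2 * ν + ε) := by
  have e2 : ∀ᶠ n : ℕ in atTop, msd d n ≤ (n : ℝ) ^ (2 * ν + ε) := by
    filter_upwards [eventually_ge_atTop 2, hν.eventually (gt_mem_nhds (by linarith :
      2 * ν < 2 * ν + ε))] with n hn h
    apply le_rpow_of_log _ _ h
    · exact_mod_cast hn
    · have := msd_ge_one hd (show 1 ≤ n by omega)
      linarith
  exact Filter.eventually_atTop.1 e2

theorem half_ball (hd : 1 ≤ d) {n R : ℕ} (hn : 1 ≤ n) (hr : 2 * msd d n ≤ (R : ℝ) ^ 2) :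
    (C d n : ℝ) ≤ 2 * ∑ z ∈ ball d R, (Cz d n z : ℝ) := by
  classical
  refine (half hd hn hr).trans (mul_le_mul_of_nonneg_left ?_ (by norm_num))
  have h1 : ((Gam d n).filter (fun s => nsq (pos s n) ≤ (R : ℝ) ^ 2)).card =
      ∑ z ∈ ball d R, (((Gam d n).filter (fun s => nsq (pos s n) ≤ (R : ℝ) ^ 2)).filter
        (fun s => pos s n = z)).card := by
    apply Finset.card_eq_sum_card_fiberwise
    intro s hs
    exact mem_ball.2 (mem_filter.1 hs).2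
  rw [h1]
  push_cast
  refine Finset.sum_le_sum (fun z _ => ?_)
  unfold Cz
  exact_mod_cast Finset.card_le_card (Finset.filter_subset_filter _ (filter_subset _ _))

theorem ev_rpow {e : ℝ} (he : 0 < e) (K : ℝ) : ∀ᶠ R : ℕ in atTop, K ≤ (R : ℝ) ^ e :=
  ((tendsto_rpow_atTop he).comp tendsto_natCast_atTop_atTop).eventually_ge_atTop K

/-- the mass in the ball of radius `R` of the walks with about `R^(1/ν)` steps -/
theorem window_lower (hd : 1 ≤ d) {μ γ ν : ℝ}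
    (hμ : Tendsto (fun n : ℕ => (C d n : ℝ) ^ (1 / (n : ℝ))) atTop (𝓝 μ))
    (hγ : Tendsto (fun n : ℕ => Real.log (C d n / μ ^ n) / Real.log n) atTop (𝓝 (γ - 1)))
    (hν : Tendsto (fun n : ℕ => Real.log (msd d n) / Real.log n) atTop (𝓝 (2 * ν)))
    (hν0 : 0 < ν) (δ : ℝ) (hδ : 0 < δ) (c : ℝ) (hc : 0 < c) :
    ∀ᶠ R : ℕ in atTop, (R : ℝ) ^ (γ / ν - c) ≤ ∑ z ∈ ball d R,
      ∑ n ∈ Ico (⌊(R : ℝ) ^ ((1 - δ) / ν)⌋₊) (⌊(R : ℝ) ^ ((1 + δ) / ν)⌋₊),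
        (Cz d n z : ℝ) / μ ^ n := by
  obtain ⟨hμ1, hμ2⟩ := mu_pow_le hd hμ
  have hμ0 : 0 < μ := by linarith
  have hγ1 := gamma_ge_one hd hμ hγ
  -- choice of `ε`
  obtain ⟨ε, hε0, hε1, hεδ, hε⟩ : ∃ ε > 0, ε < 1 ∧ ε < δ ∧
      γ / ν - c < (1 - ε) / ν * (γ - ε) := by
    have hcont : Tendsto (fun ε : ℝ => (1 - ε) / ν * (γ - ε)) (𝓝[>] 0)
        (𝓝 ((1 - 0) / ν * (γ - 0))) := by
      apply Tendsto.mono_left _ nhdsWithin_le_nhds
      exact Continuous.tendsto (by fun_prop) 0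
    have h0 : γ / ν - c < (1 - 0) / ν * (γ - 0) := by
      have : (1 - 0) / ν * (γ - 0) = γ / ν := by ring
      rw [this]; linarith
    have h1 := hcont.eventually (lt_mem_nhds h0)
    have h2 : ∀ᶠ ε : ℝ in 𝓝[>] 0, ε < 1 :=
      nhdsWithin_le_nhds (gt_mem_nhds (by norm_num : (0:ℝ) < 1))
    have h3 : ∀ᶠ ε : ℝ in 𝓝[>] 0, ε < δ := nhdsWithin_le_nhds (gt_mem_nhds hδ)
    obtain ⟨ε, h4, h5, h6, h7⟩ := (h1.and (h2.and (h3.and self_mem_nhdsWithin))).exists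
    exact ⟨ε, h7, h5, h6, h4⟩
  obtain ⟨n1, hn1⟩ := lower_sum hd hμ1 hγ1 hγ ε hε0
  obtain ⟨n2, hn2⟩ := msd_upper hd hν (ε * ν) (by positivity)
  set s : ℝ := (1 - ε) / ν with hs
  have hs0 : 0 < s := by rw [hs]; apply div_pos <;> linarith
  set b : ℝ := 2 * ν + ε * ν with hb
  have hb0 : 0 < b := by rw [hb]; positivity
  have hsb : s * b = 2 - (ε + ε ^ 2) := by rw [hs, hb]; field_simp; ring
  have hge : 0 < γ - ε := by linarith
  filter_upwards [ev_rpow hs0 (n1 + n2 + 2), ev_rpow (show 0 < (δ + ε) / ν by positivity) 3,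
    ev_rpow (show 0 < ε + ε ^ 2 by positivity) (2 * 2 ^ b),
    ev_rpow (show 0 < s * (γ - ε) - (γ / ν - c) by rw [hs]; linarith)
      (2 * 2 ^ ε * 2 ^ (γ - ε)), eventually_ge_atTop 1] with R h1 h2 h3 h4 hR1
  have hRr : (1 : ℝ) ≤ R := by exact_mod_cast hR1
  have hRp : (0 : ℝ) < R := by linarith
  set x : ℝ := (R : ℝ) ^ s with hx
  have hx0 : 0 < x := by rw [hx]; positivity
  have hn1r : (0 : ℝ) ≤ n1 := by positivity
  have hn2r : (0 : ℝ) ≤ n2 := by positivity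
  have hx2 : 2 ≤ x := by linarith
  set N : ℕ := ⌊x⌋₊ with hN
  have hNx : (N : ℝ) ≤ x := Nat.floor_le hx0.le
  have hNx2 : x < N + 1 := Nat.lt_floor_add_one x
  have hNn : n1 + n2 + 2 ≤ N := by
    apply Nat.le_floor
    push_cast; exact h1
  have hN1 : 1 ≤ N := by omega
  have hNr : (1 : ℝ) ≤ N := by exact_mod_cast hN1
  have hNp : (0 : ℝ) < N := by linarith
  have hxN : x / 2 ≤ N := by linarith
  -- the range of `n`
  have hsub : Icc N (2 * N) ⊆ Ico (⌊(R : ℝ) ^ ((1 - δ) / ν)⌋₊) (⌊(R : ℝ) ^ ((1 + δ) / ν)⌋₊) := by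
    intro n hn
    obtain ⟨ha, hb'⟩ := mem_Icc.1 hn
    rw [mem_Ico]
    constructor
    · refine le_trans ?_ ha
      apply Nat.floor_le_floor
      apply Real.rpow_le_rpow_of_exponent_le hRr
      rw [hs]
      apply div_le_div_of_nonneg_right _ hν0.le
      linarith
    · have h5 : 2 * N + 1 ≤ ⌊(R : ℝ) ^ ((1 + δ) / ν)⌋₊ := by
        apply Nat.le_floor
        push_cast
        have h6 : (R : ℝ) ^ ((1 + δ) / ν) = x * (R : ℝ) ^ ((δ + ε) / ν) := by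
          rw [hx, ← Real.rpow_add hRp]
          congr 1
          rw [hs]; field_simp; ring
        rw [h6]
        have h7 : x * 3 ≤ x * (R : ℝ) ^ ((δ + ε) / ν) := mul_le_mul_of_nonneg_left h2 hx0.le
        linarith
      omega
  -- the mean square displacement
  have hmsd : ∀ n ∈ Icc N (2 * N), 2 * msd d n ≤ (R : ℝ) ^ 2 := by
    intro n hn
    obtain ⟨ha, hb'⟩ := mem_Icc.1 hn
    have h5 := hn2 n (by omega)
    have h6 : (n : ℝ) ^ b ≤ (2 * x) ^ b := by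
      apply Real.rpow_le_rpow (by positivity) _ hb0.le
      have : (n : ℝ) ≤ 2 * N := by exact_mod_cast hb'
      linarith
    have h7 : (2 * x) ^ b = 2 ^ b * (R : ℝ) ^ (s * b) := by
      rw [Real.mul_rpow (by norm_num) hx0.le, hx, ← Real.rpow_mul hRp.le]
    have h8 : (R : ℝ) ^ 2 = (R : ℝ) ^ (s * b) * (R : ℝ) ^ (ε + ε ^ 2) := by
      rw [← Real.rpow_add hRp, hsb, ← Real.rpow_natCast]
      congr 1; push_cast; ring
    have h9 : (R : ℝ) ^ (s * b) * (2 * 2 ^ b) ≤ (R : ℝ) ^ (s * b) * (R : ℝ) ^ (ε + ε ^ 2) :=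
      mul_le_mul_of_nonneg_left h3 (by positivity)
    rw [h8]
    calc 2 * msd d n ≤ 2 * (n : ℝ) ^ b := by linarith
      _ ≤ 2 * (2 ^ b * (R : ℝ) ^ (s * b)) := by rw [← h7]; linarith
      _ = (R : ℝ) ^ (s * b) * (2 * 2 ^ b) := by ring
      _ ≤ _ := h9
  -- the sum
  have hsum : ∑ n ∈ Icc N (2 * N), (C d n : ℝ) / μ ^ n ≤ 2 * ∑ z ∈ ball d R,
      ∑ n ∈ Ico (⌊(R : ℝ) ^ ((1 - δ) / ν)⌋₊) (⌊(R : ℝ) ^ ((1 + δ) / ν)⌋₊),
        (Cz d n z : ℝ) / μ ^ n := by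
    calc ∑ n ∈ Icc N (2 * N), (C d n : ℝ) / μ ^ n
        ≤ ∑ n ∈ Icc N (2 * N), (2 * ∑ z ∈ ball d R, (Cz d n z : ℝ)) / μ ^ n := by
          refine Finset.sum_le_sum (fun n hn => ?_)
          have hn1' : 1 ≤ n := hN1.trans (mem_Icc.1 hn).1
          apply div_le_div_of_nonneg_right _ (by positivity)
          exact half_ball hd hn1' (hmsd n hn)
      _ = 2 * ∑ z ∈ ball d R, ∑ n ∈ Icc N (2 * N), (Cz d n z : ℝ) / μ ^ n := by
          rw [Finset.sum_comm, Finset.mul_sum]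
          refine Finset.sum_congr rfl (fun n _ => ?_)
          rw [mul_div_assoc, Finset.sum_div]
      _ ≤ _ := by
          apply mul_le_mul_of_nonneg_left _ (by norm_num)
          refine Finset.sum_le_sum (fun z _ => ?_)
          exact Finset.sum_le_sum_of_subset_of_nonneg hsub (fun n _ _ => by positivity)
  have hlow := hn1 N (by omega) hN1
  -- the final comparison
  have h5 : x ^ (γ - ε) * 2 ^ (-(γ - ε)) ≤ (N : ℝ) ^ (γ - ε) := by
    have h6 : (x / 2) ^ (γ - ε) ≤ (N : ℝ) ^ (γ - ε) :=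
      Real.rpow_le_rpow (by positivity) hxN hge.le
    rw [Real.div_rpow hx0.le (by norm_num), div_eq_mul_inv, ← Real.rpow_neg (by norm_num)] at h6
    exact h6
  have h6 : x ^ (γ - ε) = (R : ℝ) ^ (γ / ν - c) * (R : ℝ) ^ (s * (γ - ε) - (γ / ν - c)) := by
    rw [hx, ← Real.rpow_mul hRp.le, ← Real.rpow_add hRp]
    congr 1; ring
  have h7 : (2 : ℝ) ^ ε * 2 ^ (-ε) = 1 := by
    rw [← Real.rpow_add (by norm_num), add_neg_cancel, Real.rpow_zero]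
  have h8 : (2 : ℝ) ^ (γ - ε) * 2 ^ (-(γ - ε)) = 1 := by
    rw [← Real.rpow_add (by norm_num), add_neg_cancel, Real.rpow_zero]
  have h9 : 2 * (R : ℝ) ^ (γ / ν - c) ≤ (N : ℝ) ^ (γ - ε) * 2 ^ (-ε) := by
    calc 2 * (R : ℝ) ^ (γ / ν - c)
        = (R : ℝ) ^ (γ / ν - c) * (2 * 2 ^ ε * 2 ^ (γ - ε)) * 2 ^ (-(γ - ε)) * 2 ^ (-ε) := by
          have : (R : ℝ) ^ (γ / ν - c) * (2 * 2 ^ ε * 2 ^ (γ - ε)) * 2 ^ (-(γ - ε)) * 2 ^ (-ε) =
            2 * (R : ℝ) ^ (γ / ν - c) * ((2 : ℝ) ^ ε * 2 ^ (-ε)) *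
              ((2 : ℝ) ^ (γ - ε) * 2 ^ (-(γ - ε))) := by ring
          rw [this, h7, h8]; ring
      _ ≤ (R : ℝ) ^ (γ / ν - c) * (R : ℝ) ^ (s * (γ - ε) - (γ / ν - c)) * 2 ^ (-(γ - ε)) *
            2 ^ (-ε) := by
          apply mul_le_mul_of_nonneg_right _ (by positivity)
          apply mul_le_mul_of_nonneg_right _ (by positivity)
          exact mul_le_mul_of_nonneg_left h4 (by positivity)
      _ = x ^ (γ - ε) * 2 ^ (-(γ - ε)) * 2 ^ (-ε) := by rw [h6]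
      _ ≤ _ := mul_le_mul_of_nonneg_right h5 (by positivity)
  linarith

end Pool.Agent.N516.FI
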